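import Pool.Agent.N20.EW.Stm
/-!
# The Clifford count of the irreducible Brauer characters of a cyclic extension

`X5` derives `S_X5` from `S_X4` (the count of the irreducible trace functions fixed by an
automorphism) and `S_PCC` (the count of pairs of elements of a subgroup of a cyclic group).
-/
set_option autoImplicit false
open scoped Classical BigOperators
noncomputable section

namespace Pool.Agent.N482.EWX5

open Pool.Agent.N20.EW
open Pool.Agent.Y63.NV (IsIrrTrace IsClassFun)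

/-! ### elements of order prime to `p` -/

theorem reg_iff {p : ℕ} (hp : p.Prime) {H : Type} [Group H] {E : ℕ} (hE : E ≠ 0) (y : H)
    (h : orderOf y ∣ E) : ¬ p ∣ orderOf y ↔ y ^ (E / p ^ E.factorization p) = 1 := by
  rw [← orderOf_dvd_iff_pow_eq_one]
  constructor
  · intro hy
    have hcop : (orderOf y).Coprime (p ^ E.factorization p) :=
      Nat.Coprime.pow_right _ ((Nat.Prime.coprime_iff_not_dvd hp).2 hy).symm
    have h2 : orderOf y ∣ p ^ E.factorization p * (E / p ^ E.factorization p) := by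
      rw [Nat.ordProj_mul_ordCompl_eq_self]
      exact h
    exact hcop.dvd_of_dvd_mul_left h2
  · intro hy hpd
    exact Nat.not_dvd_ordCompl hp hE (hpd.trans hy)

theorem exists_q {p : ℕ} (hp : p.Prime) {E : ℕ} (hE : E ≠ 0) : ∃ q q' : ℕ,
    E ∣ q * (E / p ^ E.factorization p) ∧ q ≡ 1 [MOD E / p ^ E.factorization p] ∧
    q * q ≡ q [MOD E] ∧ q * q' ≡ 0 [MOD E] ∧ q' + q ≡ 1 [MOD E] := by
  have hcop : (p ^ E.factorization p).Coprime (E / p ^ E.factorization p) :=
    Nat.Coprime.pow_left _ (Nat.coprime_ordCompl hp hE)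
  have hmul : p ^ E.factorization p * (E / p ^ E.factorization p) = E :=
    Nat.ordProj_mul_ordCompl_eq_self E p
  obtain ⟨q, hq1, hq2⟩ := Nat.chineseRemainder hcop 0 1
  obtain ⟨q', hq1', hq2'⟩ := Nat.chineseRemainder hcop 1 0
  refine ⟨q, q', ?_, hq2, ?_, ?_, ?_⟩
  · conv_lhs => rw [← hmul]
    exact mul_dvd_mul_right ((Nat.modEq_zero_iff_dvd).1 hq1) _
  · have : q * q ≡ q [MOD p ^ E.factorization p * (E / p ^ E.factorization p)] := by
      rw [← Nat.modEq_and_modEq_iff_modEq_mul hcop]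
      refine ⟨?_, ?_⟩
      · exact (hq1.mul hq1).trans (by rw [mul_zero]; exact hq1.symm)
      · exact (hq2.mul hq2).trans (by rw [mul_one]; exact hq2.symm)
    rwa [hmul] at this
  · have : q * q' ≡ 0 [MOD p ^ E.factorization p * (E / p ^ E.factorization p)] := by
      rw [← Nat.modEq_and_modEq_iff_modEq_mul hcop]
      refine ⟨?_, ?_⟩
      · exact (hq1.mul_right q').trans (by rw [zero_mul])
      · exact (hq2'.mul_left q).trans (by rw [mul_zero])
    rwa [hmul] at this
  · have : q' + q ≡ 1 [MOD p ^ E.factorization p * (E / p ^ E.factorization p)] := by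
      rw [← Nat.modEq_and_modEq_iff_modEq_mul hcop]
      refine ⟨?_, ?_⟩
      · exact (hq1'.add hq1).trans (by rw [add_zero])
      · exact (hq2'.add hq2).trans (by rw [zero_add])
    rwa [hmul] at this

/-! ### commuting pairs twisted by an automorphism -/

theorem twist_count {H : Type} [Group H] [Finite H] (α : MulAut H) (S : H → Prop)
    (hS : ∀ g x, S (g * x * g⁻¹) ↔ S x) :
    Nat.card {z : H × H // S z.2 ∧ z.1 * α z.2 * z.1⁻¹ = z.2} =
      Nat.card H * Nat.card {C : ConjClasses H // (∀ x, ConjClasses.mk x = C → S x) ∧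
        ∀ x, ConjClasses.mk x = C → ConjClasses.mk (α x) = C} := by
  have hout : ∀ C : ConjClasses H, ConjClasses.mk (Quotient.out C) = C := fun C => Quotient.out_eq C
  have hu : ∀ x : H, ∃ u : H, ConjClasses.mk (α x) = ConjClasses.mk x →
      u * Quotient.out (ConjClasses.mk x) * u⁻¹ = α x := by
    intro x
    by_cases h : ConjClasses.mk (α x) = ConjClasses.mk x
    · have h1 : ConjClasses.mk (Quotient.out (ConjClasses.mk x)) = ConjClasses.mk (α x) := by
        rw [hout, h]
      rw [ConjClasses.mk_eq_mk_iff_isConj, isConj_iff] at h1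
      obtain ⟨u, hu⟩ := h1
      exact ⟨u, fun _ => hu⟩
    · exact ⟨1, fun h' => absurd h' h⟩
  choose u hu using hu
  have hcl : ∀ z : H × H, z.1 * α z.2 * z.1⁻¹ = z.2 →
      ConjClasses.mk (α z.2) = ConjClasses.mk z.2 := by
    intro z hz
    rw [ConjClasses.mk_eq_mk_iff_isConj, isConj_iff]
    exact ⟨z.1, hz⟩
  have hgood : ∀ x : H, S x → ConjClasses.mk (α x) = ConjClasses.mk x →
      (∀ y, ConjClasses.mk y = ConjClasses.mk x → S y) ∧
        ∀ y, ConjClasses.mk y = ConjClasses.mk x → ConjClasses.mk (α y) = ConjClasses.mk x := by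
    intro x hx hαx
    refine ⟨fun y hy => ?_, fun y hy => ?_⟩
    · rw [eq_comm, ConjClasses.mk_eq_mk_iff_isConj, isConj_iff] at hy
      obtain ⟨g, hg⟩ := hy
      rw [← hg, hS]
      exact hx
    · rw [← hαx]
      rw [eq_comm, ConjClasses.mk_eq_mk_iff_isConj, isConj_iff] at hy
      obtain ⟨g, hg⟩ := hy
      rw [← hg, eq_comm, ConjClasses.mk_eq_mk_iff_isConj, isConj_iff]
      exact ⟨α g, by rw [map_mul, map_mul, map_inv]⟩
  rw [← Nat.card_prod]
  refine Nat.card_congr ?_
  exact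
    { toFun := fun z => (z.1.1 * u z.1.2, ⟨ConjClasses.mk z.1.2, hgood z.1.2 z.2.1 (hcl z.1 z.2.2)⟩)
      invFun := fun w => ⟨(w.1 * (u (w.1 * Quotient.out w.2.1 * w.1⁻¹))⁻¹,
        w.1 * Quotient.out w.2.1 * w.1⁻¹), by
          have hmk : ConjClasses.mk (w.1 * Quotient.out w.2.1 * w.1⁻¹) = w.2.1 := by
            conv_rhs => rw [← hout w.2.1]
            rw [eq_comm, ConjClasses.mk_eq_mk_iff_isConj, isConj_iff]
            exact ⟨w.1, rfl⟩
          refine ⟨w.2.2.1 _ hmk, ?_⟩
          have h1 := hu (w.1 * Quotient.out w.2.1 * w.1⁻¹) (by rw [hmk]; exact w.2.2.2 _ hmk)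
          rw [hmk] at h1
          show w.1 * (u (w.1 * Quotient.out w.2.1 * w.1⁻¹))⁻¹ * α (w.1 * Quotient.out w.2.1 * w.1⁻¹) *
            (w.1 * (u (w.1 * Quotient.out w.2.1 * w.1⁻¹))⁻¹)⁻¹ = w.1 * Quotient.out w.2.1 * w.1⁻¹
          rw [← h1]
          group⟩
      left_inv := by
        rintro ⟨⟨h, x⟩, hx1, hx2⟩
        have h1 := hu x (hcl (h, x) hx2)
        have h2 : h * u x * Quotient.out (ConjClasses.mk x) * (h * u x)⁻¹ = x := by
          have h3 : h * α x * h⁻¹ = x := hx2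
          rw [← h1] at h3
          refine Eq.trans ?_ h3
          group
        refine Subtype.ext (Prod.ext ?_ h2)
        show h * u x * (u (h * u x * Quotient.out (ConjClasses.mk x) * (h * u x)⁻¹))⁻¹ = h
        rw [h2, mul_inv_cancel_right]
      right_inv := by
        rintro ⟨h, C, hC1, hC2⟩
        have hmk : ConjClasses.mk (h * Quotient.out C * h⁻¹) = C := by
          conv_rhs => rw [← hout C]
          rw [eq_comm, ConjClasses.mk_eq_mk_iff_isConj, isConj_iff]
          exact ⟨h, rfl⟩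
        refine Prod.ext ?_ (Subtype.ext hmk)
        show h * (u (h * Quotient.out C * h⁻¹))⁻¹ * u (h * Quotient.out C * h⁻¹) = h
        rw [inv_mul_cancel_right] }


/-! ### counting -/

theorem card_if {A : Type} [Fintype A] (R : A → Prop) :
    Nat.card {a // R a} = ∑ a, if R a then 1 else 0 := by
  rw [Nat.card_eq_fintype_card, Fintype.card_subtype, Finset.card_filter]

theorem double_count {A B : Type} [Fintype A] [Fintype B] (R : A → B → Prop) :
    ∑ a, Nat.card {b // R a b} = ∑ b, Nat.card {a // R a b} := by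
  simp only [card_if]
  exact Finset.sum_comm

/-! ### stabilisers -/

section stab

variable {X : Type} {G K L : Type} [Group G] [Group K] [Group L]

def St (i : G →* K) (hinj : Function.Injective i) (hN : i.range.Normal) (φ : G → X) :
    Subgroup K where
  carrier := {k | ∀ x y : G, i y = k * i x * k⁻¹ → φ y = φ x}
  one_mem' := by
    intro x y h
    have h1 : i y = i x := by
      rw [h]
      group
    rw [hinj h1]
  mul_mem' := by
    intro a b ha hb x y h
    obtain ⟨z, hz⟩ := hN.conj_mem (i x) ⟨x, rfl⟩ b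
    rw [ha z y (by rw [hz, h]; group), hb x z hz]
  inv_mem' := by
    intro a ha x y h
    exact (ha y x (by rw [h]; group)).symm

variable {i : G →* K} (hinj : Function.Injective i) (hN : i.range.Normal)

theorem mem_St {φ : G → X} {k : K} :
    k ∈ St i hinj hN φ ↔ ∀ x y : G, i y = k * i x * k⁻¹ → φ y = φ x := Iff.rfl

theorem range_le_St {φ : G → X} (hφ : ∀ g x : G, φ (g * x * g⁻¹) = φ x) :
    i.range ≤ St i hinj hN φ := by
  rintro k ⟨g, rfl⟩ x y h
  have h1 : y = g * x * g⁻¹ := hinj (by rw [h, map_mul, map_mul, map_inv])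
  rw [h1, hφ]

def TT (i : G →* K) (hinj : Function.Injective i) (hN : i.range.Normal) (π : K →* L)
    (φ : G → X) : Subgroup L := (St i hinj hN φ).map π

theorem mem_TT {π : K →* L} (hker : π.ker = i.range) {φ : G → X}
    (hφ : ∀ g x : G, φ (g * x * g⁻¹) = φ x) (k : K) :
    π k ∈ TT i hinj hN π φ ↔ ∀ x y : G, i y = k * i x * k⁻¹ → φ y = φ x := by
  have h1 : (TT i hinj hN π φ).comap π = St i hinj hN φ :=
    Subgroup.comap_map_eq_self (by rw [hker]; exact range_le_St hinj hN hφ)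
  rw [← mem_St hinj hN, ← h1, Subgroup.mem_comap]

include hinj in
theorem card_K [Finite K] {π : K →* L} (hπ : Function.Surjective π) (hker : π.ker = i.range) :
    Nat.card K = Nat.card G * Nat.card L := by
  rw [← Subgroup.card_mul_index i.range]
  congr 1
  · exact (Nat.card_congr (MonoidHom.ofInjective hinj).toEquiv).symm
  · rw [← hker, Subgroup.index_ker, MonoidHom.range_eq_top.2 hπ, Subgroup.card_top]

theorem card_TT [Finite K] [Finite L] {π : K →* L} (hπ : Function.Surjective π)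
    (hker : π.ker = i.range) {φ : G → X} (hφ : ∀ g x : G, φ (g * x * g⁻¹) = φ x) [Finite G] :
    tt i φ = Nat.card (TT i hinj hN π φ) := by
  have h1 : (TT i hinj hN π φ).comap π = St i hinj hN φ :=
    Subgroup.comap_map_eq_self (by rw [hker]; exact range_le_St hinj hN hφ)
  have h2 : (St i hinj hN φ).index = (TT i hinj hN π φ).index := by
    rw [← h1, Subgroup.index_comap_of_surjective _ hπ]
  have h3 := Subgroup.card_mul_index (St i hinj hN φ)
  have h4 := Subgroup.card_mul_index (TT i hinj hN π φ)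
  rw [card_K hinj hπ hker, ← h4, h2, ← mul_assoc] at h3
  have h5 := Nat.eq_of_mul_eq_mul_right
    (Nat.pos_of_ne_zero (Subgroup.index_ne_zero_of_finite (H := TT i hinj hN π φ))) h3
  have h6 : stc i φ = Nat.card G * Nat.card (TT i hinj hN π φ) := h5
  unfold tt
  rw [h6, Nat.mul_div_cancel_left _ Nat.card_pos]

end stab


/-! ### the two counting functions -/

section main

variable {F G K L : Type} [Field F] [Group G] [Group K] [Group L]

def PP (p : ℕ) (π : K →* L) (c d : L) : ℕ :=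
  Nat.card {z : K × K // π z.1 = c ∧ π z.2 = d ∧ ¬ p ∣ orderOf z.2 ∧ z.1 * z.2 = z.2 * z.1}

def RR (F : Type) [Field F] (i : G →* K) (hinj : Function.Injective i) (hN : i.range.Normal)
    (π : K →* L) (c d : L) : ℕ :=
  Nat.card {φ : {φ : G → F // IsIrrTrace φ} //
    c ∈ TT i hinj hN π φ.1 ∧ d ∈ TT i hinj hN π φ.1}

theorem PP_m1 (p : ℕ) (π : K →* L) (c d : L) : PP p π (c * d) d = PP p π c d := by
  refine Nat.card_congr ?_
  exact
    { toFun := fun z => ⟨(z.1.1 * z.1.2⁻¹, z.1.2), by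
        obtain ⟨⟨g, x⟩, h1, h2, h3, h4⟩ := z
        refine ⟨?_, h2, h3, ?_⟩
        · show π (g * x⁻¹) = c
          have h1' : π g = c * d := h1
          have h2' : π x = d := h2
          rw [map_mul, map_inv, h1', h2', mul_inv_cancel_right]
        · show g * x⁻¹ * x = x * (g * x⁻¹)
          have h4' : g * x = x * g := h4
          rw [inv_mul_cancel_right, ← mul_assoc, ← h4', mul_inv_cancel_right]⟩
      invFun := fun z => ⟨(z.1.1 * z.1.2, z.1.2), by
        obtain ⟨⟨g, x⟩, h1, h2, h3, h4⟩ := z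
        refine ⟨?_, h2, h3, ?_⟩
        · show π (g * x) = c * d
          have h1' : π g = c := h1
          have h2' : π x = d := h2
          rw [map_mul, h1', h2']
        · show g * x * x = x * (g * x)
          have h4' : g * x = x * g := h4
          rw [← mul_assoc, ← h4']⟩
      left_inv := by
        rintro ⟨⟨g, x⟩, h⟩
        refine Subtype.ext (Prod.ext ?_ rfl)
        exact inv_mul_cancel_right g x
      right_inv := by
        rintro ⟨⟨g, x⟩, h⟩
        refine Subtype.ext (Prod.ext ?_ rfl)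
        exact mul_inv_cancel_right g x }

theorem PP_m2 {p : ℕ} (hp : p.Prime) [Finite K] (π : K →* L) {q : ℕ}
    (hq : Nat.card K ∣ q * (Nat.card K / p ^ (Nat.card K).factorization p)) (c d : L) :
    PP p π c (d * c ^ q) = PP p π c d := by
  have hE : Nat.card K ≠ 0 := Nat.card_pos.ne'
  have hreg : ∀ y : K, ¬ p ∣ orderOf y ↔
      y ^ (Nat.card K / p ^ (Nat.card K).factorization p) = 1 :=
    fun y => reg_iff hp hE y (orderOf_dvd_natCard y)
  have hgq : ∀ g : K, (g ^ q) ^ (Nat.card K / p ^ (Nat.card K).factorization p) = 1 := by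
    intro g
    rw [← pow_mul]
    exact orderOf_dvd_iff_pow_eq_one.1 ((orderOf_dvd_natCard g).trans hq)
  refine Nat.card_congr ?_
  exact
    { toFun := fun z => ⟨(z.1.1, z.1.2 * (z.1.1 ^ q)⁻¹), by
        obtain ⟨⟨g, x⟩, h1, h2, h3, h4⟩ := z
        have h1' : π g = c := h1
        have h2' : π x = d * c ^ q := h2
        have h3' : ¬ p ∣ orderOf x := h3
        have h4' : Commute g x := h4
        refine ⟨h1, ?_, ?_, ?_⟩
        · show π (x * (g ^ q)⁻¹) = d
          rw [map_mul, map_inv, map_pow, h1', h2', mul_inv_cancel_right]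
        · show ¬ p ∣ orderOf (x * (g ^ q)⁻¹)
          rw [hreg, (h4'.symm.pow_right q).inv_right.mul_pow, inv_pow, hgq, (hreg x).1 h3',
            inv_one, mul_one]
        · exact h4'.mul_right ((Commute.refl g).pow_right q).inv_right⟩
      invFun := fun z => ⟨(z.1.1, z.1.2 * z.1.1 ^ q), by
        obtain ⟨⟨g, x⟩, h1, h2, h3, h4⟩ := z
        have h1' : π g = c := h1
        have h2' : π x = d := h2
        have h3' : ¬ p ∣ orderOf x := h3
        have h4' : Commute g x := h4
        refine ⟨h1, ?_, ?_, ?_⟩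
        · show π (x * g ^ q) = d * c ^ q
          rw [map_mul, map_pow, h1', h2']
        · show ¬ p ∣ orderOf (x * g ^ q)
          rw [hreg, (h4'.symm.pow_right q).mul_pow, hgq, (hreg x).1 h3', mul_one]
        · exact h4'.mul_right ((Commute.refl g).pow_right q)⟩
      left_inv := by
        rintro ⟨⟨g, x⟩, h⟩
        refine Subtype.ext (Prod.ext rfl ?_)
        exact inv_mul_cancel_right x (g ^ q)
      right_inv := by
        rintro ⟨⟨g, x⟩, h⟩
        refine Subtype.ext (Prod.ext rfl ?_)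
        exact mul_inv_cancel_right x (g ^ q) }

variable {i : G →* K} (hinj : Function.Injective i) (hN : i.range.Normal)

theorem RR_m1 (π : K →* L) (c d : L) :
    RR F i hinj hN π (c * d) d = RR F i hinj hN π c d := by
  refine Nat.card_congr (Equiv.subtypeEquivRight fun φ => ?_)
  constructor
  · rintro ⟨h1, h2⟩
    exact ⟨((TT i hinj hN π φ.1).mul_mem_cancel_right h2).1 h1, h2⟩
  · rintro ⟨h1, h2⟩
    exact ⟨((TT i hinj hN π φ.1).mul_mem_cancel_right h2).2 h1, h2⟩

theorem RR_m2 (π : K →* L) (q : ℕ) (c d : L) :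
    RR F i hinj hN π c (d * c ^ q) = RR F i hinj hN π c d := by
  refine Nat.card_congr (Equiv.subtypeEquivRight fun φ => ?_)
  constructor
  · rintro ⟨h1, h2⟩
    exact ⟨h1, ((TT i hinj hN π φ.1).mul_mem_cancel_right
      ((TT i hinj hN π φ.1).pow_mem h1 q)).1 h2⟩
  · rintro ⟨h1, h2⟩
    exact ⟨h1, ((TT i hinj hN π φ.1).mul_mem_cancel_right
      ((TT i hinj hN π φ.1).pow_mem h1 q)).2 h2⟩

theorem cf_of {φ : G → F} (hφ : IsIrrTrace φ) (g x : G) : φ (g * x * g⁻¹) = φ x := by
  obtain ⟨V, _, _, _, ρ, _, rfl⟩ := hφ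
  exact Representation.char_conj ρ x g

include hinj hN in
theorem exists_aut [Finite G] (k : K) : ∃ α : MulAut G, ∀ y, i (α y) = k * i y * k⁻¹ := by
  have hex : ∀ y : G, ∃ z : G, i z = k * i y * k⁻¹ := fun y => hN.conj_mem (i y) ⟨y, rfl⟩ k
  choose f hf using hex
  have hfi : Function.Injective f := by
    intro x y hxy
    apply hinj
    have h1 : k * i x * k⁻¹ = k * i y * k⁻¹ := by rw [← hf, ← hf, hxy]
    exact mul_left_cancel (mul_right_cancel h1)
  have hmul : ∀ x y, f (x * y) = f x * f y := by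
    intro x y
    apply hinj
    rw [map_mul, hf, hf, hf, map_mul]
    group
  have hbij : Function.Bijective (MonoidHom.mk' f hmul) := Finite.injective_iff_bijective.1 hfi
  exact ⟨MulEquiv.ofBijective (MonoidHom.mk' f hmul) hbij, fun y => hf y⟩

theorem base {p : ℕ} [Fact p.Prime] [IsAlgClosed F] [CharP F p] (h : S_X4) [Finite G] [Finite K]
    {π : K →* L} (hker : π.ker = i.range) (k : K) :
    PP p π (π k) 1 = Nat.card G * RR F i hinj hN π (π k) 1 := by
  obtain ⟨α, hα⟩ := exists_aut hinj hN k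
  have hRR : RR F i hinj hN π (π k) 1 =
      Nat.card {φ : G → F // IsIrrTrace φ ∧ ∀ x, φ (α x) = φ x} := by
    have hiff : ∀ φ : {φ : G → F // IsIrrTrace φ},
        (π k ∈ TT i hinj hN π φ.1 ∧ 1 ∈ TT i hinj hN π φ.1) ↔ ∀ x, φ.1 (α x) = φ.1 x := by
      intro φ
      rw [mem_TT hinj hN hker (cf_of φ.2)]
      constructor
      · rintro ⟨h1, -⟩ x
        exact h1 x (α x) (hα x)
      · intro h1
        refine ⟨fun x y hxy => ?_, one_mem _⟩
        have h2 : y = α x := hinj (by rw [hxy, hα])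
        rw [h2, h1]
    refine Nat.card_congr ?_
    exact (Equiv.subtypeEquivRight hiff).trans
      (Equiv.subtypeSubtypeEquivSubtypeInter (fun φ : G → F => IsIrrTrace φ)
        (fun φ : G → F => ∀ x, φ (α x) = φ x))
  rw [hRR, h p F G α, ← twist_count α (fun x => ¬ p ∣ orderOf x)]
  swap
  · intro g x
    have h1 : orderOf (g * x * g⁻¹) = orderOf x := by
      have := orderOf_injective (MulAut.conj g).toMonoidHom (MulAut.conj g).injective x
      exact this
    show ¬ p ∣ orderOf (g * x * g⁻¹) ↔ ¬ p ∣ orderOf x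
    rw [h1]
  have hmemr : ∀ y : K, π y = 1 → ∃ g, i g = y := by
    intro y hy
    have : y ∈ π.ker := hy
    rw [hker] at this
    exact this
  have hπi : ∀ g, π (i g) = 1 := by
    intro g
    have : i g ∈ i.range := ⟨g, rfl⟩
    rw [← hker] at this
    exact this
  symm
  refine Nat.card_congr (Equiv.ofBijective (fun z => ⟨(i z.1.1 * k, i z.1.2), ?_⟩) ⟨?_, ?_⟩)
  · obtain ⟨⟨g, x⟩, h1, h2⟩ := z
    have h1' : ¬ p ∣ orderOf x := h1
    have h2' : g * α x * g⁻¹ = x := h2
    refine ⟨?_, hπi x, ?_, ?_⟩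
    · show π (i g * k) = π k
      rw [map_mul, hπi, one_mul]
    · show ¬ p ∣ orderOf (i x)
      rw [orderOf_injective i hinj]
      exact h1'
    · show i g * k * i x = i x * (i g * k)
      have h3 : i g * (k * i x * k⁻¹) * (i g)⁻¹ = i x := by
        rw [← hα, ← map_inv, ← map_mul, ← map_mul, h2']
      conv_rhs => rw [← h3]
      group
  · rintro ⟨⟨g, x⟩, h1⟩ ⟨⟨g', x'⟩, h1'⟩ heq
    have h2 := congrArg (fun w => w.1) heq
    have h3 : i g * k = i g' * k := congrArg Prod.fst h2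
    have h4 : i x = i x' := congrArg Prod.snd h2
    exact Subtype.ext (Prod.ext (hinj (mul_right_cancel h3)) (hinj h4))
  · rintro ⟨⟨a, b⟩, h1, h2, h3, h4⟩
    have h1' : π a = π k := h1
    obtain ⟨g, hg⟩ := hmemr (a * k⁻¹) (by rw [map_mul, map_inv, h1', mul_inv_cancel])
    obtain ⟨x, hx⟩ := hmemr b h2
    have ha : i g * k = a := by rw [hg, inv_mul_cancel_right]
    have h3' : ¬ p ∣ orderOf b := h3
    have h4' : a * b = b * a := h4
    refine ⟨⟨(g, x), ?_, ?_⟩, ?_⟩
    · show ¬ p ∣ orderOf x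
      rw [← orderOf_injective i hinj, hx]
      exact h3'
    · show g * α x * g⁻¹ = x
      apply hinj
      rw [map_mul, map_mul, map_inv, hα]
      have h5 : i g * k * i x = i x * (i g * k) := by rw [ha, hx, h4']
      have h6 : i g * (k * i x * k⁻¹) * (i g)⁻¹ = (i g * k * i x) * k⁻¹ * (i g)⁻¹ := by group
      rw [h6, h5]
      group
    · exact Subtype.ext (Prod.ext ha hx)

/-- the Euclidean induction -/
theorem euclid {E q q' : ℕ} {τ : L} (hτ : τ ^ E = 1)
    (hqq : q * q ≡ q [MOD E]) (hqq' : q * q' ≡ 0 [MOD E])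
    (Q : L → L → Prop) (m1 : ∀ c d, Q (c * d) d ↔ Q c d) (m2 : ∀ c d, Q c (d * c ^ q) ↔ Q c d)
    (hb : ∀ c, Q c 1) : ∀ s i j : ℕ, i + j = s → ∀ m : ℕ,
      Q (τ ^ (q' * m + q * i)) (τ ^ (q * j)) := by
  have hmod : ∀ a b : ℕ, a ≡ b [MOD E] → τ ^ a = τ ^ b := by
    intro a b hab
    rw [pow_eq_pow_iff_modEq]
    exact hab.of_dvd (orderOf_dvd_of_pow_eq_one hτ)
  have hcq : ∀ m i : ℕ, (τ ^ (q' * m + q * i)) ^ q = τ ^ (q * i) := by
    intro m i
    rw [← pow_mul]
    apply hmod
    have h1 : (q' * m + q * i) * q = (q * q') * m + (q * q) * i := by ring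
    rw [h1]
    have h2 := (hqq'.mul_right m).add (hqq.mul_right i)
    rwa [zero_mul, zero_add] at h2
  intro s
  induction s using Nat.strong_induction_on with
  | _ s ih =>
    intro i j hij m
    rcases Nat.eq_zero_or_pos j with hj | hj
    · subst hj
      rw [mul_zero, pow_zero]
      exact hb _
    rcases Nat.eq_zero_or_pos i with hi | hi
    · subst hi
      rw [← m1, ← pow_add, mul_zero, add_zero]
      have h1 := (m2 (τ ^ (q' * m + q * j)) 1).2 (hb _)
      rwa [one_mul, hcq] at h1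
    rcases le_or_gt i j with hle | hlt
    · have h1 := (m2 (τ ^ (q' * m + q * i)) (τ ^ (q * (j - i)))).2
        (ih (i + (j - i)) (by omega) i (j - i) rfl m)
      rw [hcq, ← pow_add, ← mul_add, Nat.sub_add_cancel hle] at h1
      exact h1
    · have h1 := (m1 (τ ^ (q' * m + q * (i - j))) (τ ^ (q * j))).2
        (ih (i - j + j) (by omega) (i - j) j rfl m)
      rw [← pow_add, add_assoc, ← mul_add, Nat.sub_add_cancel hlt.le] at h1
      exact h1

include hN in
theorem PP_eq_RR {p : ℕ} [Fact p.Prime] [IsAlgClosed F] [CharP F p] (h : S_X4) [Finite G]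
    [Finite K] {π : K →* L} (hπ : Function.Surjective π) (hker : π.ker = i.range)
    {τ : L} (hτ : ∀ c : L, ∃ n : ℤ, c = τ ^ n) (c d : L) (hd : ¬ p ∣ orderOf d) :
    PP p π c d = Nat.card G * RR F i hinj hN π c d := by
  have hp : p.Prime := Fact.out
  have hE : Nat.card K ≠ 0 := Nat.card_pos.ne'
  have : Finite L := Finite.of_surjective π hπ
  have hLK : Nat.card L ∣ Nat.card K := Dvd.intro_left _ (card_K hinj hπ hker).symm
  have hord : ∀ y : L, orderOf y ∣ Nat.card K := fun y => (orderOf_dvd_natCard y).trans hLK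
  obtain ⟨q, q', hq, hq1, hqq, hqq', hsum⟩ := exists_q hp hE
  have hτE : τ ^ Nat.card K = 1 := orderOf_dvd_iff_pow_eq_one.1 (hord τ)
  have key := euclid (q' := q') hτE hqq hqq'
    (fun c d => PP p π c d = Nat.card G * RR F i hinj hN π c d)
    (fun c d => by rw [PP_m1, RR_m1])
    (fun c d => by rw [PP_m2 hp π hq, RR_m2])
    (fun c => by
      obtain ⟨k, rfl⟩ := hπ c
      exact base hinj hN h hker k)
  have hnat : ∀ c : L, ∃ n : ℕ, c = τ ^ n := by
    intro c
    obtain ⟨n, hn⟩ := hτ c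
    have h1 : c ∈ Subgroup.zpowers τ := ⟨n, hn.symm⟩
    rw [← mem_powers_iff_mem_zpowers] at h1
    obtain ⟨m, hm⟩ := h1
    exact ⟨m, hm.symm⟩
  obtain ⟨a, rfl⟩ := hnat c
  obtain ⟨b, rfl⟩ := hnat d
  have h1 : τ ^ a = τ ^ (q' * a + q * a) := by
    rw [pow_eq_pow_iff_modEq]
    have h2 := (hsum.mul_right a).of_dvd (hord τ)
    rw [one_mul, add_mul] at h2
    exact h2.symm
  have h2 : τ ^ b = τ ^ (q * b) := by
    have h3 : (τ ^ b) ^ (Nat.card K / p ^ (Nat.card K).factorization p) = 1 :=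
      (reg_iff hp hE _ (hord _)).1 hd
    have h4 : (τ ^ b) ^ q = (τ ^ b) ^ 1 := by
      rw [pow_eq_pow_iff_modEq]
      exact hq1.of_dvd (orderOf_dvd_of_pow_eq_one h3)
    rw [pow_one, ← pow_mul, mul_comm] at h4
    exact h4.symm
  rw [h1, h2]
  exact key (a + b) a b rfl a

theorem sum_PP (p : ℕ) [Fintype K] [Fintype L] (π : K →* L) :
    ∑ w : L × L, PP p π w.1 w.2 =
      Nat.card {z : K × K // ¬ p ∣ orderOf z.2 ∧ z.1 * z.2 = z.2 * z.1} := by
  unfold PP
  rw [double_count (fun (w : L × L) (z : K × K) =>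
    π z.1 = w.1 ∧ π z.2 = w.2 ∧ ¬ p ∣ orderOf z.2 ∧ z.1 * z.2 = z.2 * z.1), card_if]
  refine Finset.sum_congr rfl fun z _ => ?_
  by_cases hz : ¬ p ∣ orderOf z.2 ∧ z.1 * z.2 = z.2 * z.1
  · rw [if_pos hz, Nat.card_eq_one_iff_unique]
    refine ⟨⟨?_⟩, ⟨⟨(π z.1, π z.2), rfl, rfl, hz⟩⟩⟩
    rintro ⟨⟨a, b⟩, h1, h2, _⟩ ⟨⟨a', b'⟩, h1', h2', _⟩
    exact Subtype.ext (Prod.ext (h1.symm.trans h1') (h2.symm.trans h2'))
  · rw [if_neg hz]
    have : IsEmpty {w : L × L // π z.1 = w.1 ∧ π z.2 = w.2 ∧ ¬ p ∣ orderOf z.2 ∧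
        z.1 * z.2 = z.2 * z.1} := ⟨fun w => hz ⟨w.2.2.2.1, w.2.2.2.2⟩⟩
    exact Nat.card_of_isEmpty

theorem sum_RR {p : ℕ} [Fact p.Prime] (hP : S_PCC) [Fintype L]
    [Fintype {φ : G → F // IsIrrTrace φ}] (hL : IsCyclic L) (π : K →* L) :
    ∑ w : L × L, (if p ∣ orderOf w.2 then 0 else RR F i hinj hN π w.1 w.2) =
      ∑ φ : {φ : G → F // IsIrrTrace φ}, pc p (Nat.card (TT i hinj hN π φ.1)) := by
  have h1 : ∀ w : L × L, (if p ∣ orderOf w.2 then 0 else RR F i hinj hN π w.1 w.2) =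
      Nat.card {φ : {φ : G → F // IsIrrTrace φ} // w.1 ∈ TT i hinj hN π φ.1 ∧
        w.2 ∈ TT i hinj hN π φ.1 ∧ ¬ p ∣ orderOf w.2} := by
    intro w
    by_cases hw : p ∣ orderOf w.2
    · rw [if_pos hw]
      have : IsEmpty {φ : {φ : G → F // IsIrrTrace φ} // w.1 ∈ TT i hinj hN π φ.1 ∧
          w.2 ∈ TT i hinj hN π φ.1 ∧ ¬ p ∣ orderOf w.2} := ⟨fun φ => φ.2.2.2 hw⟩
      exact Nat.card_of_isEmpty.symm
    · rw [if_neg hw]
      refine Nat.card_congr (Equiv.subtypeEquivRight fun φ => ?_)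
      constructor
      · rintro ⟨h1, h2⟩
        exact ⟨h1, h2, hw⟩
      · rintro ⟨h1, h2, _⟩
        exact ⟨h1, h2⟩
  rw [Finset.sum_congr rfl fun w _ => h1 w, double_count (fun (w : L × L)
    (φ : {φ : G → F // IsIrrTrace φ}) => w.1 ∈ TT i hinj hN π φ.1 ∧
        w.2 ∈ TT i hinj hN π φ.1 ∧ ¬ p ∣ orderOf w.2)]
  refine Finset.sum_congr rfl fun φ _ => ?_
  exact (hP p L (TT i hinj hN π φ.1) inferInstance).symm

end main

theorem one_class {p : ℕ} (hp : p.Prime) {H : Type} [Group H] :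
    (∀ x : H, ConjClasses.mk x = ConjClasses.mk (1 : H) → ¬ p ∣ orderOf x) ∧
      ∀ x : H, ConjClasses.mk x = ConjClasses.mk (1 : H) →
        ConjClasses.mk ((1 : MulAut H) x) = ConjClasses.mk (1 : H) := by
  refine ⟨fun x hx => ?_, fun x hx => hx⟩
  rw [eq_comm, ConjClasses.mk_eq_mk_iff_isConj, isConj_iff] at hx
  obtain ⟨c, hc⟩ := hx
  rw [← hc]
  have : orderOf (c * 1 * c⁻¹) = 1 := by
    rw [orderOf_eq_one_iff]
    group
  rw [this]
  exact fun h => hp.one_lt.ne' (Nat.dvd_one.1 h)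

theorem finite_irr {p : ℕ} [Fact p.Prime] {F : Type} [Field F] [IsAlgClosed F] [CharP F p]
    (h : S_X4) (H : Type) [Group H] [Finite H] : Finite {φ : H → F // IsIrrTrace φ} := by
  have hp : p.Prime := Fact.out
  have h1 := h p F H 1
  have h2 : Nonempty {C : ConjClasses H // (∀ x, ConjClasses.mk x = C → ¬ p ∣ orderOf x) ∧
      ∀ x, ConjClasses.mk x = C → ConjClasses.mk ((1 : MulAut H) x) = C} :=
    ⟨⟨ConjClasses.mk 1, one_class hp⟩⟩
  have h3 := Nat.card_pos (α := {C : ConjClasses H // (∀ x, ConjClasses.mk x = C → ¬ p ∣ orderOf x) ∧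
      ∀ x, ConjClasses.mk x = C → ConjClasses.mk ((1 : MulAut H) x) = C})
  rw [← h1] at h3
  have h4 := Nat.finite_of_card_ne_zero h3.ne'
  exact Finite.of_injective (β := {φ : H → F // IsIrrTrace φ ∧ ∀ x, φ ((1 : MulAut H) x) = φ x})
    (fun φ => ⟨φ.1, φ.2, fun x => rfl⟩)
    (fun a b hab => Subtype.ext (congrArg (fun w => w.1) hab))

theorem count_comm {p : ℕ} [Fact p.Prime] {F : Type} [Field F] [IsAlgClosed F] [CharP F p]
    (h : S_X4) (H : Type) [Group H] [Finite H] :
    Nat.card {z : H × H // ¬ p ∣ orderOf z.2 ∧ z.1 * z.2 = z.2 * z.1} =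
      Nat.card H * Nat.card {φ : H → F // IsIrrTrace φ} := by
  have h1 : Nat.card {φ : H → F // IsIrrTrace φ} =
      Nat.card {φ : H → F // IsIrrTrace φ ∧ ∀ x, φ ((1 : MulAut H) x) = φ x} :=
    Nat.card_congr (Equiv.subtypeEquivRight fun φ => ⟨fun h => ⟨h, fun x => rfl⟩, fun h => h.1⟩)
  rw [h1, h p F H 1, ← twist_count 1 (fun x => ¬ p ∣ orderOf x)]
  · refine Nat.card_congr (Equiv.subtypeEquivRight fun z => ?_)
    have h2 : z.1 * z.2 = z.2 * z.1 ↔ z.1 * (1 : MulAut H) z.2 * z.1⁻¹ = z.2 := by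
      rw [mul_inv_eq_iff_eq_mul]
      rfl
    rw [h2]
  · intro g x
    have h1 : orderOf (g * x * g⁻¹) = orderOf x :=
      orderOf_injective (MulAut.conj g).toMonoidHom (MulAut.conj g).injective x
    show ¬ p ∣ orderOf (g * x * g⁻¹) ↔ ¬ p ∣ orderOf x
    rw [h1]

theorem X5 (h : S_X4) (hP : S_PCC) : S_X5 := by
  intro p _ F _ _ _ G K _ _ _ _ i hi
  have hN := hi.normal
  have hinj := hi.inj
  obtain ⟨t, ht⟩ := hi.cyc
  have hπ : Function.Surjective (QuotientGroup.mk' i.range) := QuotientGroup.mk'_surjective _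
  have hker : (QuotientGroup.mk' i.range).ker = i.range := QuotientGroup.ker_mk' _
  have hτ : ∀ c : K ⧸ i.range, ∃ n : ℤ, c = (QuotientGroup.mk' i.range t) ^ n := by
    intro c
    obtain ⟨k, rfl⟩ := hπ c
    obtain ⟨n, g, hk⟩ := ht k
    refine ⟨n, ?_⟩
    rw [hk, map_mul, map_zpow]
    have h1 : QuotientGroup.mk' i.range (i g) = 1 := by
      have h2 : i g ∈ (QuotientGroup.mk' i.range).ker := by
        rw [hker]
        exact ⟨g, rfl⟩
      exact h2
    rw [h1, mul_one]
  have hL : IsCyclic (K ⧸ i.range) := ⟨⟨QuotientGroup.mk' i.range t, fun c => by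
    obtain ⟨n, hn⟩ := hτ c
    exact ⟨n, hn.symm⟩⟩⟩
  have hfin : Finite {φ : G → F // IsIrrTrace φ} := finite_irr (p := p) h G
  have := Fintype.ofFinite K
  have := Fintype.ofFinite (K ⧸ i.range)
  have := Fintype.ofFinite {φ : G → F // IsIrrTrace φ}
  rw [finsum_eq_sum_of_fintype]
  have h1 := sum_PP p (QuotientGroup.mk' i.range)
  rw [count_comm (F := F) h K] at h1
  have h2 : ∀ w : (K ⧸ i.range) × (K ⧸ i.range), PP p (QuotientGroup.mk' i.range) w.1 w.2 =
      Nat.card G * (if p ∣ orderOf w.2 then 0 else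
        RR F i hinj hN (QuotientGroup.mk' i.range) w.1 w.2) := by
    intro w
    by_cases hw : p ∣ orderOf w.2
    · rw [if_pos hw, mul_zero]
      have : IsEmpty {z : K × K // QuotientGroup.mk' i.range z.1 = w.1 ∧
          QuotientGroup.mk' i.range z.2 = w.2 ∧ ¬ p ∣ orderOf z.2 ∧ z.1 * z.2 = z.2 * z.1} := by
        refine ⟨?_⟩
        rintro ⟨⟨a, b⟩, _, h6, h7, _⟩
        have h6' : QuotientGroup.mk' i.range b = w.2 := h6
        have h7' : ¬ p ∣ orderOf b := h7
        refine h7' (hw.trans ?_)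
        rw [← h6']
        exact orderOf_map_dvd _ _
      exact Nat.card_of_isEmpty
    · rw [if_neg hw]
      exact PP_eq_RR hinj hN h hπ hker hτ w.1 w.2 hw
  rw [Finset.sum_congr rfl fun w _ => h2 w, ← Finset.mul_sum, sum_RR hinj hN hP hL] at h1
  have h3 : ∀ φ : {φ : G → F // IsIrrTrace φ}, pc p (tt i φ.1) =
      pc p (Nat.card (TT i hinj hN (QuotientGroup.mk' i.range) φ.1)) := by
    intro φ
    rw [card_TT hinj hN hπ hker (cf_of φ.2)]
  rw [Finset.sum_congr rfl fun φ _ => h3 φ]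
  have h4 : Nat.card K = Nat.card G * i.range.index := by
    rw [← Subgroup.card_mul_index i.range]
    congr 1
    exact (Nat.card_congr (MonoidHom.ofInjective hinj).toEquiv).symm
  rw [h4, mul_assoc] at h1
  exact Nat.eq_of_mul_eq_mul_left Nat.card_pos h1

end Pool.Agent.N482.EWX5
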