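import Pool.Agent.Helper639.ForceCH

set_option autoImplicit false

open Cardinal

namespace Pool.Agent.N482

open Pool.Agent.Helper639.ForceCH (Om)

/-- The sentence named by `CHHolds P`, evaluated in the universe: a family of sets of natural
numbers indexed by `ω₁` contains every set of natural numbers. -/
def CH : Prop := ∃ E : Om → ℕ → Prop, ∀ x : ℕ → Prop, ∃ a : Om, ∀ n : ℕ, x n ↔ E a n

theorem ch_iff : CH ↔ (𝔠 : Cardinal.{0}) = ℵ₁ := by
  constructor
  · rintro ⟨E, hE⟩
    refine le_antisymm ?_ Cardinal.aleph_one_le_continuum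
    have hs : Function.Surjective (fun a : Om => {n : ℕ | E a n}) := by
      intro x
      obtain ⟨a, ha⟩ := hE (fun n => n ∈ x)
      refine ⟨a, ?_⟩
      ext n
      exact (ha n).symm
    have h := Cardinal.mk_le_of_surjective hs
    rw [Cardinal.mk_set, Cardinal.mk_nat, Cardinal.two_power_aleph0] at h
    refine h.trans (le_of_eq ?_)
    show #((ℵ₁ : Cardinal.{0}).ord.ToType) = ℵ₁
    rw [Cardinal.mk_toType, Cardinal.card_ord]
  · intro h
    have h1 : #(Set ℕ) ≤ #Om := by
      rw [Cardinal.mk_set, Cardinal.mk_nat, Cardinal.two_power_aleph0, h]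
      show (ℵ₁ : Cardinal.{0}) ≤ #((ℵ₁ : Cardinal.{0}).ord.ToType)
      rw [Cardinal.mk_toType, Cardinal.card_ord]
    obtain ⟨f⟩ := h1
    have hs := Function.invFun_surjective f.injective
    refine ⟨fun a n => n ∈ Function.invFun f a, fun x => ?_⟩
    obtain ⟨a, ha⟩ := hs {n | x n}
    refine ⟨a, fun n => ?_⟩
    show x n ↔ n ∈ Function.invFun (⇑f) a
    rw [ha]
    rfl

/-- some forcing notion preserves `ω₁` and forces the continuum hypothesis -/
theorem ch_forced : ∃ (P : Type) (_ : Preorder P), Nonempty P ∧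
    ∀ p : P, p ∈ Pool.Agent.Helper639.ForceCH.OmegaOnePreserved P ∧
      p ∈ Pool.Agent.Helper639.ForceCH.CHHolds P := by
  obtain ⟨P, i, hn, h⟩ := Pool.Agent.Helper639.ForceCH.exists_forcing
  exact ⟨P, i, hn, fun p => ⟨(h p).1, (h p).2.2⟩⟩

end Pool.Agent.N482
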