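import Pool.Agent.N988.ET.Stm

set_option autoImplicit false

/-!
# ET/D1: domination, first phase
-/

open MeasureTheory Set Filter
open scoped Topology
open Pool.Agent.N988.EA Pool.Agent.N988.EC Pool.Agent.N988.EP Pool.Agent.N988.ES
open Pool.Agent.N988.ET

namespace Pool.Agent.N482.ET

lemma crit_q {b : ℕ} {p : ℝ} (h : Crit b p) :
    0 < 1 - p ^ 2 ∧ 1 - p ^ 2 < 1 ∧ (1 + p) * (1 - p ^ 2) ^ (b - 1) = 1 := by
  have h1 := h.pos
  have h2 := h.lt
  have hq : 0 < 1 - p ^ 2 := by nlinarith
  refine ⟨hq, by nlinarith, ?_⟩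
  have h3 : (1 - p ^ 2) ^ b = 1 - p := by linarith [h.fix]
  obtain ⟨m, rfl⟩ : ∃ m, b = m + 1 := ⟨b - 1, by have := h.two; omega⟩
  rw [pow_succ] at h3
  rw [Nat.add_sub_cancel]
  have h4 : (1 - p) * ((1 + p) * (1 - p ^ 2) ^ m) = (1 - p) * 1 := by
    linear_combination h3
  exact mul_left_cancel₀ (by linarith) h4

/-- The real inequalities. -/
lemma ineqs {b k : ℕ} {p R A X Y : ℝ} (h : Crit b p) (hk : k ≤ b - 1) (hR : 0 < R) (hX : 0 < X)
    (hXA : X < A) (h1 : R * (A - X) ≤ (1 - p) * Y) (h2 : R * X < p * Y) (h3 : R * A < Y) :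
    R * (A - p * X) < (1 - p ^ 2) * Y ∧
    rho b p * R * (A - (1 - p ^ 2) ^ k * (A - p * X)) < p * ((1 - p ^ 2) ^ k * (p * Y)) ∧
    rho b p * R * A < (1 - p ^ 2) ^ k * (p * Y) := by
  obtain ⟨hq0, hq1, hqb⟩ := crit_q h
  have hp := h.pos
  have hp1 := h.lt
  have hA : 0 < A := hX.trans hXA
  have hY : 0 < Y := lt_trans (mul_pos hR hA) h3
  have hqk : (1 - p ^ 2) ^ (b - 1) ≤ (1 - p ^ 2) ^ k :=
    pow_le_pow_of_le_one hq0.le hq1.le hk
  set Q := (1 - p ^ 2) ^ (b - 1) with hQ
  set K := (1 - p ^ 2) ^ k with hK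
  have hQ0 : 0 < Q := pow_pos hq0 _
  have hK0 : 0 < K := pow_pos hq0 _
  have hrho : rho b p = p * Q := rfl
  refine ⟨?_, ?_, ?_⟩
  · rcases le_or_gt (p * A) X with hc | hc
    · have e1 : R * (A - p * X) ≤ (1 - p ^ 2) * (R * A) := by
        have : p * (p * A) ≤ p * X := mul_le_mul_of_nonneg_left hc hp.le
        have h5 : A - p * X ≤ (1 - p ^ 2) * A := by nlinarith
        calc R * (A - p * X) ≤ R * ((1 - p ^ 2) * A) := mul_le_mul_of_nonneg_left h5 hR.le
          _ = _ := by ring
      exact lt_of_le_of_lt e1 (mul_lt_mul_of_pos_left h3 hq0)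
    · have e1 : R * (A - p * X) < R * ((1 + p) * (A - X)) :=
        mul_lt_mul_of_pos_left (by nlinarith) hR
      have e2 : (1 + p) * (R * (A - X)) ≤ (1 + p) * ((1 - p) * Y) :=
        mul_le_mul_of_nonneg_left h1 (by linarith)
      calc R * (A - p * X) < R * ((1 + p) * (A - X)) := e1
        _ = (1 + p) * (R * (A - X)) := by ring
        _ ≤ (1 + p) * ((1 - p) * Y) := e2
        _ = _ := by ring
  · rw [hrho]
    have hB : 0 < A - p * X := by nlinarith
    have e1 : A - K * (A - p * X) ≤ A - Q * (A - p * X) := by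
      have := mul_le_mul_of_nonneg_right hqk hB.le
      linarith
    have e2 : A - Q * (A - p * X) = Q * (p * (A + X)) := by
      have : (1 + p) * Q * A = A := by rw [hqb, one_mul]
      linear_combination (-1 : ℝ) * this
    have e3 : R * (A + X) < (1 + p) * Y := by nlinarith
    have e4 : p * Q * R * (A - K * (A - p * X)) ≤ p * Q * R * (Q * (p * (A + X))) := by
      rw [← e2]
      exact mul_le_mul_of_nonneg_left e1 (by positivity)
    have e5 : p * Q * R * (Q * (p * (A + X))) < p * Q * Q * p * ((1 + p) * Y) := by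
      have := mul_lt_mul_of_pos_left e3 (show 0 < p * Q * Q * p by positivity)
      calc p * Q * R * (Q * (p * (A + X))) = p * Q * Q * p * (R * (A + X)) := by ring
        _ < _ := this
    have e6 : p * Q * Q * p * ((1 + p) * Y) = p * (Q * (p * Y)) := by
      calc p * Q * Q * p * ((1 + p) * Y) = p * (Q * (p * Y)) * ((1 + p) * Q) := by ring
        _ = _ := by rw [hqb, mul_one]
    have e7 : p * (Q * (p * Y)) ≤ p * (K * (p * Y)) :=
      mul_le_mul_of_nonneg_left (mul_le_mul_of_nonneg_right hqk (by positivity)) hp.le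
    linarith
  · rw [hrho]
    have e1 : p * Q * (R * A) < p * Q * Y := mul_lt_mul_of_pos_left h3 (by positivity)
    have e2 : Q * (p * Y) ≤ K * (p * Y) := mul_le_mul_of_nonneg_right hqk (by positivity)
    nlinarith

theorem t_D1 (h1 : S_B1) (h2 : S_FR) (h3 : S_FAC) : S_D1 := by
  intro b p hc n F i s a hctx hfr hNK hI
  have hb1 : 1 ≤ b := le_trans (by norm_num) hc.two
  have hp := hc.pos
  have hp1 := hc.lt
  obtain ⟨hq0, hq1, hqb⟩ := crit_q hc
  obtain ⟨B1, B2, B3, -, -⟩ := h1 b n hb1 p hp hp1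
  obtain ⟨C1, C2, C3, -, -⟩ := h1 b (n + 1) hb1 p hp hp1
  obtain ⟨F1, F2, F3⟩ := h2 b p hc n
  obtain ⟨c, hc0, G1, G2, G3, G4, G5⟩ := h3 b p hc n F i a hctx
  obtain ⟨e₀, he₀, I1, I2, I3⟩ := hI
  set A := pf p (cs a i s) with hA
  set X := px p (cs a i s) with hX
  set Y := pp p (cs a i s) e₀ with hY
  set R := rho b p ^ n with hR
  have hQ0 : 0 < (1 - p ^ 2) ^ (b - 1) := pow_pos hq0 _
  have hrho : 0 < rho b p := mul_pos hp hQ0
  have hR0 : 0 < R := pow_pos hrho _
  obtain ⟨hA0, hX0, hXA⟩ := B1 (cs a i s)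
  have hXne : X ≠ 0 ∧ X ≠ A := by
    constructor
    · intro h; exact hNK ((B3 _).2 (Or.inl h))
    · intro h; exact hNK ((B3 _).2 (Or.inr h))
  have hXpos : 0 < X := lt_of_le_of_ne hX0 (Ne.symm hXne.1)
  have hXlt : X < A := lt_of_le_of_ne hXA hXne.2
  have hFi : F.card ≤ b - 1 := by
    have : F ⊆ Finset.univ.erase i := by
      intro j hj
      rw [Finset.mem_erase]
      exact ⟨fun h => hctx.1 (h ▸ hj), Finset.mem_univ _⟩
    have h5 := Finset.card_le_card this
    rwa [Finset.card_erase_of_mem (Finset.mem_univ _), Finset.card_univ, Fintype.card_fin] at h5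
  obtain ⟨K1, K2, K3⟩ := ineqs hc hFi hR0 hXpos hXlt I1 I2 I3
  set K := (1 - p ^ 2) ^ F.card with hK
  have hK0 : 0 < K := pow_pos hq0 _
  have hY0 : 0 < Y := lt_trans (mul_pos hR0 hA0) I3
  have hpf1 : pf p (cs a i (!s)) = 1 := by rw [hfr]; exact F1
  have hpx1 : px p (cs a i (!s)) = p := by rw [hfr]; exact F2
  have hprodf : pf p (cs a i false) * pf p (cs a i true) = A := by
    cases s
    · simp only [Bool.not_false] at hpf1
      rw [hpf1, mul_one]
    · simp only [Bool.not_true] at hpf1
      rw [hpf1, one_mul]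
  have hprodx : px p (cs a i false) * px p (cs a i true) = p * X := by
    cases s
    · simp only [Bool.not_false] at hpx1
      rw [hpx1, mul_comm]
    · simp only [Bool.not_true] at hpx1
      rw [hpx1]
  have hAX : 0 < A - p * X := by nlinarith
  have hpa : pf p a = c * A := by rw [G1, hprodf]
  have hpxa : pf p a - px p a = c * K * (A - p * X) := by rw [G2, hprodf, hprodx]
  have hppi : ∀ e, pp p a ((i, s, e) : Edge b (n + 1)) = c * K * (pp p (cs a i s) e * p) := by
    intro e
    rw [G3 s e, hpx1]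
  have hNKa : ¬ Known a := by
    intro h
    rcases (C3 a).1 h with h | h
    · have hK1 : K ≤ 1 := pow_le_one₀ hq0.le hq1.le
      have e1 : c * K * (A - p * X) = c * A := by rw [← hpxa, h, sub_zero, hpa]
      have e2 : c * K * (A - p * X) ≤ c * 1 * (A - p * X) := by gcongr
      have e3 : 0 < c * (p * X) := by positivity
      nlinarith
    · have e1 : c * K * (A - p * X) = 0 := by rw [← hpxa, h, sub_self]
      have e2 : 0 < c * K * (A - p * X) := by positivity
      linarith
  have hae₀ : a ((i, s, e₀) : Edge b (n + 1)) = none := he₀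
  refine ⟨hNKa, ⟨((i, s, e₀) : Edge b (n + 1)), hae₀, ?_, ?_, ?_⟩, ?_⟩
  · rw [hpxa, hppi, pow_succ, ← hR, ← hY]
    have e1 : rho b p * (R * (A - p * X)) ≤ rho b p * ((1 - p ^ 2) * Y) :=
      mul_le_mul_of_nonneg_left K1.le hrho.le
    have e2 : rho b p * (1 + p) = p := by
      show p * (1 - p ^ 2) ^ (b - 1) * (1 + p) = p
      linear_combination p * hqb
    have e3 : rho b p * ((1 - p ^ 2) * Y) = (1 - p) * (p * Y) := by
      calc rho b p * ((1 - p ^ 2) * Y) = (rho b p * (1 + p)) * ((1 - p) * Y) := by ring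
        _ = _ := by rw [e2]; ring
    have e4 := mul_le_mul_of_nonneg_left (e1.trans_eq e3) (show 0 ≤ c * K by positivity)
    calc R * rho b p * (c * K * (A - p * X)) = c * K * (rho b p * (R * (A - p * X))) := by ring
      _ ≤ c * K * ((1 - p) * (p * Y)) := e4
      _ = _ := by ring
  · have e0 : px p a = c * (A - K * (A - p * X)) := by
      linear_combination hpa - hpxa
    rw [e0, hppi, pow_succ, ← hR, ← hY]
    have e4 := mul_lt_mul_of_pos_left K2 hc0
    calc R * rho b p * (c * (A - K * (A - p * X)))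
        = c * (rho b p * R * (A - K * (A - p * X))) := by ring
      _ < c * (p * (K * (p * Y))) := e4
      _ = _ := by ring
  · rw [hpa, hppi, pow_succ, ← hR, ← hY]
    have e4 := mul_lt_mul_of_pos_left K3 hc0
    calc R * rho b p * (c * A) = c * (rho b p * R * A) := by ring
      _ < c * (K * (p * Y)) := e4
      _ = _ := by ring
  · rintro ⟨j, s', e'⟩ ⟨hn, hbest⟩
    have hcmp := hbest ((i, s, e₀) : Edge b (n + 1)) hae₀
    rw [hppi, ← hY] at hcmp
    by_cases hji : j = i
    · subst hji
      by_cases hs : s' = s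
      · subst hs
        refine ⟨e', rfl, hn, fun e'' he'' => ?_⟩
        have h5 := hbest ((j, s', e'') : Edge b (n + 1)) he''
        rw [hppi, hppi] at h5
        have h6 := le_of_mul_le_mul_left h5 (show 0 < c * K by positivity)
        exact le_of_mul_le_mul_right h6 hp
      · exfalso
        have hs' : s' = !s := by cases s <;> cases s' <;> simp_all
        subst hs'
        have h5 := G3 (!s) e'
        rw [hfr, F3 e', Bool.not_not] at h5
        change _ ≤ pp p a ((j, !s, e') : Edge b (n + 1)) at hcmp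
        rw [h5] at hcmp
        have h6 := le_of_mul_le_mul_left hcmp (show 0 < c * K by positivity)
        change Y * p ≤ R * X at h6
        linarith
    · exfalso
      by_cases hjF : j ∈ F
      · have h5 := G4 j hjF s' e'
        rw [hprodf, hprodx] at h5
        change _ ≤ pp p a ((j, s', e') : Edge b (n + 1)) at hcmp
        rw [h5] at hcmp
        have hcard : F.card = (F.card - 1) + 1 := by
          have := Finset.card_pos.mpr ⟨j, hjF⟩
          omega
        have hKs : K = (1 - p ^ 2) ^ (F.card - 1) * (1 - p ^ 2) := by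
          rw [hK]
          conv_lhs => rw [hcard]
          rw [pow_succ]
        set K' := (1 - p ^ 2) ^ (F.card - 1) with hK'
        have hK'0 : 0 < K' := pow_pos hq0 _
        have h6 : c * K' * p * ((1 - p ^ 2) * Y) ≤ c * K' * p * (R * (A - p * X)) := by
          calc c * K' * p * ((1 - p ^ 2) * Y) = c * K * (Y * p) := by rw [hKs]; ring
            _ ≤ _ := hcmp
            _ = _ := by ring
        have h7 := le_of_mul_le_mul_left h6 (show 0 < c * K' * p by positivity)
        linarith
      · have h5 := G5 j hjF hji s' e' hn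
        change _ ≤ pp p a ((j, s', e') : Edge b (n + 1)) at hcmp
        rw [h5] at hcmp
        have : 0 < c * K * (Y * p) := by positivity
        linarith

end Pool.Agent.N482.ET
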