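import Pool.Agent.N482.PV_ABELcore
import Pool.Agent.H336R2.V.ExistsLam

set_option autoImplicit false

/-! # Project PV (helper804), task ABEL (helper482) -/

namespace Pool.Agent.N482.PV

open Filter Topology Set MeasureTheory Pool.Agent.N804.PV

theorem ph_eq (v : ℝ) : ph v = Real.sinc (Real.pi * ((2 * Real.pi)⁻¹ * v)) ^ 2 := by
  unfold ph
  congr 2
  have := Real.pi_pos
  field_simp

theorem ph_int : Integrable ph := by
  have h := H336V.ExistsLam.sinc_sq_integrable
  have hpi := Real.pi_pos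
  have h1 := h.comp_mul_left' (R := (2 * Real.pi)⁻¹) (by positivity)
  exact h1.congr (Filter.Eventually.of_forall fun v => (ph_eq v).symm)

theorem ph_pi : ∫ v in Set.Ioi (0 : ℝ), ph v = Real.pi := by
  have hpi := Real.pi_pos
  have h1 := integral_comp_mul_left_Ioi
    (fun w : ℝ => Real.sinc (Real.pi * w) ^ 2) 0 (b := (2 * Real.pi)⁻¹) (by positivity)
  rw [mul_zero, H336V.ExistsLam.integral_sinc_sq, inv_inv, smul_eq_mul] at h1
  have h2 : ∫ v in Set.Ioi (0 : ℝ), ph v =
      ∫ v in Set.Ioi (0 : ℝ), Real.sinc (Real.pi * ((2 * Real.pi)⁻¹ * v)) ^ 2 := by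
    congr 1
    funext v
    exact ph_eq v
  rw [h2, h1]
  ring

/-- **ABEL** -/
theorem abel : S_ABEL := abel_of ph_int.integrableOn ph_pi

end Pool.Agent.N482.PV
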