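import Mathlib
import Pool.Agent.N804.PV.Def

set_option autoImplicit false

/-! # Project PV (helper804), task ABEL (helper482): tails and Abel summation -/

namespace Pool.Agent.N482.PV

open Filter Topology Set MeasureTheory Pool.Agent.N804.PV

/-! ### The weight -/

theorem ph_nonneg (v : ℝ) : 0 ≤ ph v := sq_nonneg _

theorem ph_le_one (v : ℝ) : ph v ≤ 1 := by
  unfold ph
  have := Real.abs_sinc_le_one (v / 2)
  rw [← sq_abs]
  nlinarith [abs_nonneg (Real.sinc (v / 2))]

theorem ph_le {v : ℝ} (hv : 0 < v) : ph v ≤ 4 / v ^ 2 := by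
  unfold ph
  rw [Real.sinc_of_ne_zero (by positivity), div_pow]
  have h1 : Real.sin (v / 2) ^ 2 ≤ 1 := Real.sin_sq_le_one _
  calc Real.sin (v / 2) ^ 2 / (v / 2) ^ 2 ≤ 1 / (v / 2) ^ 2 := by gcongr
    _ = 4 / v ^ 2 := by
      field_simp
      norm_num

theorem sinc_smooth : ContDiff ℝ (⊤ : ℕ∞) Real.sinc := by
  have h1 : Differentiable ℂ (dslope Complex.sin 0) := by
    have := (Complex.differentiableOn_dslope (f := Complex.sin) (s := univ) (c := 0)
      univ_mem).2 Complex.differentiable_sin.differentiableOn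
    exact differentiableOn_univ.1 this
  have h2 : ContDiff ℂ (⊤ : ℕ∞) (dslope Complex.sin 0) := h1.contDiff
  have h3 : ContDiff ℝ (⊤ : ℕ∞) fun x : ℝ => (dslope Complex.sin 0 (x : ℂ)).re :=
    Complex.reCLM.contDiff.comp ((h2.restrict_scalars ℝ).comp Complex.ofRealCLM.contDiff)
  have e : Real.sinc = fun x : ℝ => (dslope Complex.sin 0 (x : ℂ)).re := by
    funext x
    by_cases hx : x = 0
    · rw [hx, Real.sinc_zero, Complex.ofReal_zero, dslope_same, Complex.deriv_sin, Complex.cos_zero,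
        Complex.one_re]
    · rw [Real.sinc_of_ne_zero hx, dslope_of_ne _ (by exact_mod_cast hx), slope_def_field,
        Complex.sin_zero, sub_zero, sub_zero, ← Complex.ofReal_sin, ← Complex.ofReal_div,
        Complex.ofReal_re]
  rw [e]
  exact h3

theorem ph_smooth : ContDiff ℝ (⊤ : ℕ∞) ph := by
  unfold ph
  exact (sinc_smooth.comp (contDiff_id.div_const 2)).pow 2

theorem ph_deriv (v : ℝ) : HasDerivAt ph (deriv ph v) v :=
  (ph_smooth.differentiable (by simp)).differentiableAt.hasDerivAt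

theorem ph_deriv_cont : Continuous (deriv ph) := ph_smooth.continuous_deriv (by simp)

theorem ph_cont : Continuous ph := ph_smooth.continuous

/-! ### Tails -/

theorem tail_aux {ι : Type} (A : Finset ι) (p d : ι → ℝ) {B : ℝ} (hB : 0 ≤ B)
    (hp : ∀ i ∈ A, 0 < p i ∧ 0 ≤ d i)
    (h : ∀ v : ℝ, 0 < v → ∑ i ∈ A, (if p i ≤ v then d i else 0) ≤ B * (1 + v)) {R : ℝ}
    (hR : 0 < R) (K : ℕ) :
    ∑ i ∈ A, (if R ≤ p i ∧ p i < 2 ^ K * R then d i / p i ^ 2 else 0) ≤
      B * (2 / R ^ 2 + 4 / R) * (1 - (1 / 2) ^ K) := by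
  classical
  induction K with
  | zero =>
    rw [Finset.sum_eq_zero, pow_zero, sub_self, mul_zero]
    intro i _
    rw [if_neg]
    rintro ⟨h1, h2⟩
    rw [pow_zero, one_mul] at h2
    linarith
  | succ K ih =>
    have hq : (0 : ℝ) < 2 ^ K := by positivity
    have h1 : ∀ i ∈ A, (if R ≤ p i ∧ p i < 2 ^ (K + 1) * R then d i / p i ^ 2 else 0) ≤
        (if R ≤ p i ∧ p i < 2 ^ K * R then d i / p i ^ 2 else 0) +
          1 / (2 ^ K * R) ^ 2 * (if p i ≤ 2 ^ (K + 1) * R then d i else 0) := by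
      intro i hi
      obtain ⟨hpi, hdi⟩ := hp i hi
      have h0 : 0 ≤ 1 / (2 ^ K * R) ^ 2 * (if p i ≤ 2 ^ (K + 1) * R then d i else 0) := by
        split_ifs
        · positivity
        · rw [mul_zero]
      by_cases hc : R ≤ p i ∧ p i < 2 ^ (K + 1) * R
      · rw [if_pos hc]
        by_cases hc' : p i < 2 ^ K * R
        · rw [if_pos ⟨hc.1, hc'⟩]
          linarith
        · rw [if_neg fun h2 => hc' h2.2, if_pos hc.2.le, zero_add]
          push Not at hc'
          rw [one_div, inv_mul_eq_div]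
          gcongr
      · rw [if_neg hc]
        have : 0 ≤ (if R ≤ p i ∧ p i < 2 ^ K * R then d i / p i ^ 2 else 0) := by
          split_ifs
          · positivity
          · exact le_rfl
        linarith
    have h2 := (Finset.sum_le_sum h1)
    rw [Finset.sum_add_distrib, ← Finset.mul_sum] at h2
    have h3 := h (2 ^ (K + 1) * R) (by positivity)
    have h4 : 1 / (2 ^ K * R) ^ 2 * ∑ i ∈ A, (if p i ≤ 2 ^ (K + 1) * R then d i else 0) ≤
        1 / (2 ^ K * R) ^ 2 * (B * (1 + 2 ^ (K + 1) * R)) :=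
      mul_le_mul_of_nonneg_left h3 (by positivity)
    have h5 : 1 / (2 ^ K * R) ^ 2 * (B * (1 + 2 ^ (K + 1) * R)) ≤
        B * (2 / R ^ 2 + 4 / R) * ((1 / 2) ^ K - (1 / 2) ^ (K + 1)) := by
      have e1 : (1 / 2 : ℝ) ^ K = 1 / 2 ^ K := by rw [one_div_pow]
      have e2 : 1 / (2 ^ K * R) ^ 2 * (B * (1 + 2 ^ (K + 1) * R)) =
          B * (1 / (2 ^ K) * (1 / 2 ^ K) * (1 / R ^ 2) + 2 * (1 / 2 ^ K) * (1 / R)) := by
        field_simp
        ring
      have e3 : B * (2 / R ^ 2 + 4 / R) * ((1 / 2) ^ K - (1 / 2) ^ (K + 1)) =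
          B * (1 * (1 / 2 ^ K) * (1 / R ^ 2) + 2 * (1 / 2 ^ K) * (1 / R)) := by
        have e0 : (1 / 2 : ℝ) ^ (K + 1) = 1 / 2 ^ K * (1 / 2) := by rw [pow_succ, e1]
        rw [e0, e1]
        ring
      rw [e2, e3]
      have h6 : 1 / (2 : ℝ) ^ K ≤ 1 := by
        rw [div_le_one hq]
        exact one_le_pow₀ (by norm_num)
      gcongr
    calc _ ≤ _ := h2
      _ ≤ B * (2 / R ^ 2 + 4 / R) * (1 - (1 / 2) ^ K) +
          B * (2 / R ^ 2 + 4 / R) * ((1 / 2) ^ K - (1 / 2) ^ (K + 1)) :=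
        add_le_add ih (h4.trans h5)
      _ = _ := by ring

theorem tail {ι : Type} (A : Finset ι) (p d : ι → ℝ) {B : ℝ} (hB : 0 ≤ B)
    (hp : ∀ i ∈ A, 0 < p i ∧ 0 ≤ d i)
    (h : ∀ v : ℝ, 0 < v → ∑ i ∈ A, (if p i ≤ v then d i else 0) ≤ B * (1 + v)) {R : ℝ}
    (hR : 0 < R) :
    ∑ i ∈ A, (if R ≤ p i then d i / p i ^ 2 else 0) ≤ B * (2 / R ^ 2 + 4 / R) := by
  classical
  obtain ⟨K, hK⟩ : ∃ K : ℕ, ∀ i ∈ A, p i < 2 ^ K * R := by
    obtain ⟨M, hM⟩ : ∃ M : ℝ, ∀ i ∈ A, p i ≤ M := by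
      rcases A.eq_empty_or_nonempty with hA | hA
      · exact ⟨0, fun i hi => by rw [hA] at hi; simp at hi⟩
      · exact ⟨A.sup' hA p, fun i hi => Finset.le_sup' p hi⟩
    obtain ⟨K, hK⟩ := pow_unbounded_of_one_lt (M / R) (one_lt_two : (1 : ℝ) < 2)
    refine ⟨K, fun i hi => (hM i hi).trans_lt ?_⟩
    rwa [div_lt_iff₀ hR] at hK
  have h1 := tail_aux A p d hB hp h hR K
  have h2 : ∑ i ∈ A, (if R ≤ p i then d i / p i ^ 2 else 0) =
      ∑ i ∈ A, (if R ≤ p i ∧ p i < 2 ^ K * R then d i / p i ^ 2 else 0) := by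
    refine Finset.sum_congr rfl fun i hi => ?_
    have := hK i hi
    by_cases hc : R ≤ p i
    · rw [if_pos hc, if_pos ⟨hc, this⟩]
    · rw [if_neg hc, if_neg fun h2 => hc h2.1]
  rw [h2]
  refine h1.trans ?_
  have h3 : (0 : ℝ) ≤ (1 / 2) ^ K := by positivity
  have h4 : 0 ≤ B * (2 / R ^ 2 + 4 / R) := by positivity
  nlinarith

/-- **ABELB** -/
theorem abelb : S_ABELB := by
  classical
  refine ⟨24, by norm_num, ?_⟩
  intro ι A p d B hB hp h lam hlam
  have hph : ∀ i ∈ A, ph (p i / lam) * d i ≤ 4 * lam ^ 2 * (d i / p i ^ 2) := by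
    intro i hi
    obtain ⟨hpi, hdi⟩ := hp i hi
    have h1 := ph_le (show 0 < p i / lam by positivity)
    calc ph (p i / lam) * d i ≤ 4 / (p i / lam) ^ 2 * d i := by gcongr
      _ = _ := by field_simp
  have htail : ∀ R : ℝ, 0 < R → ∑ i ∈ A, (if R ≤ p i then ph (p i / lam) * d i else 0) ≤
      4 * lam ^ 2 * (B * (2 / R ^ 2 + 4 / R)) := by
    intro R hR
    calc ∑ i ∈ A, (if R ≤ p i then ph (p i / lam) * d i else 0)
        ≤ ∑ i ∈ A, 4 * lam ^ 2 * (if R ≤ p i then d i / p i ^ 2 else 0) := by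
          refine Finset.sum_le_sum fun i hi => ?_
          split_ifs
          · exact hph i hi
          · rw [mul_zero]
      _ = 4 * lam ^ 2 * ∑ i ∈ A, (if R ≤ p i then d i / p i ^ 2 else 0) := by
          rw [Finset.mul_sum]
      _ ≤ _ := mul_le_mul_of_nonneg_left (tail A p d hB hp h hR) (by positivity)
  constructor
  · have h1 : ∑ i ∈ A, ph (p i / lam) * d i ≤ ∑ i ∈ A, ((if p i ≤ lam then d i else 0) +
        (if lam ≤ p i then ph (p i / lam) * d i else 0)) := by
      refine Finset.sum_le_sum fun i hi => ?_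
      obtain ⟨hpi, hdi⟩ := hp i hi
      have hn : 0 ≤ ph (p i / lam) * d i := mul_nonneg (ph_nonneg _) hdi
      by_cases hc : p i ≤ lam
      · rw [if_pos hc]
        have h2 : ph (p i / lam) * d i ≤ d i := by
          have := ph_le_one (p i / lam)
          nlinarith
        have h3 : 0 ≤ (if lam ≤ p i then ph (p i / lam) * d i else 0) := by
          split_ifs
          · exact hn
          · exact le_rfl
        linarith
      · rw [if_neg hc, if_pos (not_le.1 hc).le, zero_add]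
    rw [Finset.sum_add_distrib] at h1
    have h2 := h lam hlam
    have h3 := htail lam hlam
    have h4 : 4 * lam ^ 2 * (B * (2 / lam ^ 2 + 4 / lam)) = B * (8 + 16 * lam) := by
      field_simp
      ring
    rw [h4] at h3
    have h5 : 0 ≤ B * (1 + lam) := by positivity
    have h6 : B * (1 + lam) + B * (8 + 16 * lam) ≤ 24 * B * (1 + lam) := by
      have h7 : 0 ≤ B * lam := by positivity
      nlinarith
    linarith
  · intro R hR
    have hR0 : 0 < R := by linarith
    refine (htail R hR0).trans ?_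
    have h1 : 2 / R ^ 2 ≤ 2 / R := by
      apply div_le_div_of_nonneg_left (by norm_num) hR0
      nlinarith
    calc 4 * lam ^ 2 * (B * (2 / R ^ 2 + 4 / R)) ≤ 4 * lam ^ 2 * (B * (2 / R + 4 / R)) := by
          gcongr
      _ = 24 * B * lam ^ 2 / R := by ring

/-! ### Abel summation -/

/-- the integral of a function times the indicator function of a half line -/
theorem int_one {g' : ℝ → ℝ} (hg' : Continuous g') {g : ℝ → ℝ}
    (hg : ∀ v, HasDerivAt g (g' v) v) {p R c : ℝ} (hp : 0 < p) (hR : 0 < R) :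
    IntervalIntegrable (fun v => g' v * (if p ≤ v then c else 0)) volume 0 R ∧
    ∫ v in (0 : ℝ)..R, g' v * (if p ≤ v then c else 0) = if p ≤ R then (g R - g p) * c else 0 := by
  have e : (fun v => g' v * (if p ≤ v then c else 0)) =
      (Set.Ici p).indicator (fun v => g' v * c) := by
    funext v
    by_cases hv : p ≤ v
    · rw [if_pos hv, Set.indicator_of_mem (show v ∈ Set.Ici p from hv)]
    · rw [if_neg hv, mul_zero, Set.indicator_of_notMem (show v ∉ Set.Ici p from hv)]
  rw [e]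
  have hint : IntegrableOn (fun v => g' v * c) (Set.Ioc 0 R) :=
    (hg'.mul continuous_const).integrableOn_Ioc
  constructor
  · rw [intervalIntegrable_iff_integrableOn_Ioc_of_le hR.le]
    exact hint.indicator measurableSet_Ici
  · rw [intervalIntegral.integral_of_le hR.le, setIntegral_indicator measurableSet_Ici]
    by_cases hpR : p ≤ R
    · rw [if_pos hpR]
      have e2 : Set.Ioc 0 R ∩ Set.Ici p = Set.Icc p R := by
        ext v
        simp only [Set.mem_inter_iff, Set.mem_Ioc, Set.mem_Ici, Set.mem_Icc]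
        constructor
        · rintro ⟨⟨_, h2⟩, h3⟩
          exact ⟨h3, h2⟩
        · rintro ⟨h1, h2⟩
          exact ⟨⟨by linarith, h2⟩, h1⟩
      rw [e2, integral_Icc_eq_integral_Ioc, ← intervalIntegral.integral_of_le hpR,
        intervalIntegral.integral_mul_const,
        intervalIntegral.integral_eq_sub_of_hasDerivAt (fun v _ => hg v)
          (hg'.intervalIntegrable _ _)]
    · rw [if_neg hpR]
      have e2 : Set.Ioc 0 R ∩ Set.Ici p = ∅ := by
        ext v
        simp only [Set.mem_inter_iff, Set.mem_Ioc, Set.mem_Ici, Set.mem_empty_iff_false, iff_false]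
        rintro ⟨⟨_, h2⟩, h3⟩
        exact hpR (h3.trans h2)
      rw [e2, setIntegral_empty]

/-- **Abel summation** -/
theorem abel_sum {ι : Type} (A : Finset ι) (p c : ι → ℝ) {g' : ℝ → ℝ} (hg' : Continuous g')
    {g : ℝ → ℝ} (hg : ∀ v, HasDerivAt g (g' v) v) {R : ℝ} (hR : 0 < R) (hp : ∀ i ∈ A, 0 < p i) :
    ∑ i ∈ A, (if p i ≤ R then g (p i) * c i else 0) =
      g R * ∑ i ∈ A, (if p i ≤ R then c i else 0) -
        ∫ v in (0 : ℝ)..R, g' v * ∑ i ∈ A, (if p i ≤ v then c i else 0) := by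
  have h1 : ∫ v in (0 : ℝ)..R, g' v * ∑ i ∈ A, (if p i ≤ v then c i else 0) =
      ∑ i ∈ A, if p i ≤ R then (g R - g (p i)) * c i else 0 := by
    simp only [Finset.mul_sum]
    rw [intervalIntegral.integral_finsetSum fun i hi =>
      (int_one hg' hg (c := c i) (hp i hi) hR).1]
    exact Finset.sum_congr rfl fun i hi => (int_one hg' hg (hp i hi) hR).2
  rw [h1, Finset.mul_sum, ← Finset.sum_sub_distrib]
  refine Finset.sum_congr rfl fun i _ => ?_
  split_ifs
  · ring
  · ring

/-- the sums up to `R` converge -/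
theorem lim_R {ι : Type} {ℓ B T0 : ℝ} {A : ℝ → Finset ι} {p c d : ℝ → ι → ℝ}
    (h1 : ∀ T : ℝ, T0 ≤ T → ∀ i ∈ A T, 0 < p T i ∧ |c T i| ≤ d T i)
    (h2 : ∀ T : ℝ, T0 ≤ T → ∀ v : ℝ, 0 < v →
      ∑ i ∈ A T, (if p T i ≤ v then d T i else 0) ≤ B * (1 + v))
    (h3 : ∀ v : ℝ, 0 < v → Tendsto (fun T => ∑ i ∈ A T, if p T i ≤ v then c T i else 0) atTop
      (𝓝 (v * ℓ))) {g' : ℝ → ℝ} (hg' : Continuous g')
    {g : ℝ → ℝ} (hg : ∀ v, HasDerivAt g (g' v) v) {R : ℝ} (hR : 0 < R) :
    Tendsto (fun T => ∑ i ∈ A T, (if p T i ≤ R then g (p T i) * c T i else 0)) atTop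
      (𝓝 ((∫ v in (0 : ℝ)..R, g v) * ℓ)) := by
  classical
  have hgc : Continuous g := continuous_iff_continuousAt.2 fun v => (hg v).continuousAt
  have e1 : (∫ v in (0 : ℝ)..R, g v) * ℓ = g R * (R * ℓ) - ∫ v in (0 : ℝ)..R, g' v * (v * ℓ) := by
    have h4 := intervalIntegral.integral_mul_deriv_eq_deriv_mul (a := 0) (b := R)
      (u := fun v => v) (v := g) (u' := fun _ => 1) (v' := g') (fun v _ => hasDerivAt_id v)
      (fun v _ => hg v) (by simp) (hg'.intervalIntegrable _ _)
    have h5 : ∫ v in (0 : ℝ)..R, g' v * (v * ℓ) = (∫ v in (0 : ℝ)..R, v * g' v) * ℓ := by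
      rw [← intervalIntegral.integral_mul_const]
      congr 1
      funext v
      ring
    rw [h5, h4]
    simp only [one_mul, zero_mul, sub_zero]
    ring
  rw [e1]
  have e2 : ∀ᶠ T in atTop, g R * ∑ i ∈ A T, (if p T i ≤ R then c T i else 0) -
        ∫ v in (0 : ℝ)..R, g' v * ∑ i ∈ A T, (if p T i ≤ v then c T i else 0) =
      ∑ i ∈ A T, (if p T i ≤ R then g (p T i) * c T i else 0) := by
    filter_upwards [eventually_ge_atTop T0] with T hT
    exact (abel_sum (A T) (p T) (c T) hg' hg hR fun i hi => (h1 T hT i hi).1).symm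
  refine Tendsto.congr' e2 ?_
  refine Tendsto.sub ((h3 R hR).const_mul (g R)) ?_
  apply intervalIntegral.tendsto_integral_filter_of_dominated_convergence
    (fun v => |g' v| * (B * (1 + v)))
  · filter_upwards [eventually_ge_atTop T0] with T hT
    have h4 : IntervalIntegrable (fun v => g' v * ∑ i ∈ A T, (if p T i ≤ v then c T i else 0))
        volume 0 R := by
      simp only [Finset.mul_sum]
      have h5 : (fun v => ∑ i ∈ A T, g' v * (if p T i ≤ v then c T i else 0)) =
          ∑ i ∈ A T, fun v => g' v * (if p T i ≤ v then c T i else 0) := by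
        funext v
        rw [Finset.sum_apply]
      rw [h5]
      apply IntervalIntegrable.sum
      intro i hi
      exact (int_one hg' hg (c := c T i) (h1 T hT i hi).1 hR).1
    have h6 := h4.aestronglyMeasurable
    rwa [Set.uIoc_of_le hR.le]
  · filter_upwards [eventually_ge_atTop T0] with T hT
    refine Filter.Eventually.of_forall fun v hv => ?_
    rw [Set.uIoc_of_le hR.le] at hv
    rw [norm_mul, Real.norm_eq_abs, Real.norm_eq_abs]
    refine mul_le_mul_of_nonneg_left ?_ (abs_nonneg _)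
    refine (Finset.abs_sum_le_sum_abs _ _).trans (le_trans ?_ (h2 T hT v hv.1))
    refine Finset.sum_le_sum fun i hi => ?_
    split_ifs
    · exact (h1 T hT i hi).2
    · rw [abs_zero]
  · apply Continuous.intervalIntegrable
    fun_prop
  · refine Filter.Eventually.of_forall fun v hv => ?_
    rw [Set.uIoc_of_le hR.le] at hv
    exact (h3 v hv.1).const_mul (g' v)

/-- **ABEL**, with the value of the integral of the weight as a hypothesis -/
theorem abel_of (hi : IntegrableOn ph (Set.Ioi 0)) (hpi : ∫ v in Set.Ioi (0 : ℝ), ph v = Real.pi) :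
    S_ABEL := by
  classical
  intro ι ℓ B T0 A p c d h1 h2 h3
  have hB : 0 ≤ B := by
    have h4 := h2 T0 le_rfl 1 one_pos
    have h5 : 0 ≤ ∑ i ∈ A T0, (if p T0 i ≤ 1 then d T0 i else 0) := by
      refine Finset.sum_nonneg fun i hi => ?_
      split_ifs
      · exact (abs_nonneg _).trans (h1 T0 le_rfl i hi).2
      · exact le_rfl
    linarith
  have hG : Tendsto (fun R : ℝ => ∫ v in (0 : ℝ)..R, ph v) atTop (𝓝 Real.pi) := by
    have := intervalIntegral_tendsto_integral_Ioi (0 : ℝ) hi tendsto_id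
    rwa [hpi] at this
  have hlim := fun R hR => lim_R h1 h2 h3 ph_deriv_cont ph_deriv (R := R) hR
  rw [Metric.tendsto_atTop]
  intro ε hε
  -- choice of `R`
  have hR1 : ∀ᶠ R : ℝ in atTop, 1 ≤ R := eventually_ge_atTop 1
  have hR2 : ∀ᶠ R : ℝ in atTop, 24 * B / R < ε / 3 := by
    have : Tendsto (fun R : ℝ => 24 * B / R) atTop (𝓝 0) := tendsto_const_nhds.div_atTop tendsto_id
    exact this.eventually_lt_const (by positivity)
  have hR3 : ∀ᶠ R : ℝ in atTop, |(∫ v in (0 : ℝ)..R, ph v) * ℓ - Real.pi * ℓ| < ε / 3 := by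
    have h4 := hG.mul_const ℓ
    rw [Metric.tendsto_nhds] at h4
    have h5 := h4 (ε / 3) (by positivity)
    filter_upwards [h5] with R hR
    rwa [Real.dist_eq] at hR
  obtain ⟨R, hR1, hR2, hR3⟩ := (hR1.and (hR2.and hR3)).exists
  have hR0 : 0 < R := by linarith
  have h4 := hlim R hR0
  rw [Metric.tendsto_atTop] at h4
  obtain ⟨T1, hT1⟩ := h4 (ε / 3) (by positivity)
  refine ⟨max T0 T1, fun T hT => ?_⟩
  have hTT0 : T0 ≤ T := (le_max_left _ _).trans hT
  have h5 := hT1 T ((le_max_right _ _).trans hT)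
  rw [Real.dist_eq] at h5 ⊢
  -- the tail
  have h6 : |∑ i ∈ A T, ph (p T i) * c T i -
      ∑ i ∈ A T, (if p T i ≤ R then ph (p T i) * c T i else 0)| ≤ 24 * B / R := by
    rw [← Finset.sum_sub_distrib]
    refine (Finset.abs_sum_le_sum_abs _ _).trans ?_
    have h7 : ∀ i ∈ A T, |ph (p T i) * c T i - (if p T i ≤ R then ph (p T i) * c T i else 0)| ≤
        4 * (if R ≤ p T i then d T i / p T i ^ 2 else 0) := by
      intro i hi
      obtain ⟨hpi, hci⟩ := h1 T hTT0 i hi
      have hd : 0 ≤ d T i := (abs_nonneg _).trans hci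
      by_cases hc : p T i ≤ R
      · rw [if_pos hc, sub_self, abs_zero]
        split_ifs
        · positivity
        · rw [mul_zero]
      · rw [if_neg hc, if_pos (not_le.1 hc).le, sub_zero, abs_mul, abs_of_nonneg (ph_nonneg _)]
        calc ph (p T i) * |c T i| ≤ 4 / p T i ^ 2 * d T i := by
              gcongr
              exact ph_le hpi
          _ = _ := by ring
    refine (Finset.sum_le_sum h7).trans ?_
    rw [← Finset.mul_sum]
    have h8 := tail (A T) (p T) (d T) hB (fun i hi => ⟨(h1 T hTT0 i hi).1,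
      (abs_nonneg _).trans (h1 T hTT0 i hi).2⟩) (h2 T hTT0) hR0
    have h9 : 2 / R ^ 2 ≤ 2 / R := by
      apply div_le_div_of_nonneg_left (by norm_num) hR0
      nlinarith
    calc 4 * ∑ i ∈ A T, (if R ≤ p T i then d T i / p T i ^ 2 else 0)
        ≤ 4 * (B * (2 / R ^ 2 + 4 / R)) := by gcongr
      _ ≤ 4 * (B * (2 / R + 4 / R)) := by gcongr
      _ = 24 * B / R := by ring
  calc |∑ i ∈ A T, ph (p T i) * c T i - Real.pi * ℓ|
      ≤ |∑ i ∈ A T, ph (p T i) * c T i -
          ∑ i ∈ A T, (if p T i ≤ R then ph (p T i) * c T i else 0)| +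
        |∑ i ∈ A T, (if p T i ≤ R then ph (p T i) * c T i else 0) -
          (∫ v in (0 : ℝ)..R, ph v) * ℓ| + |(∫ v in (0 : ℝ)..R, ph v) * ℓ - Real.pi * ℓ| := by
        refine (abs_sub_le _ ((∫ v in (0 : ℝ)..R, ph v) * ℓ) _).trans ?_
        have := abs_sub_le (∑ i ∈ A T, ph (p T i) * c T i)
          (∑ i ∈ A T, (if p T i ≤ R then ph (p T i) * c T i else 0))
          ((∫ v in (0 : ℝ)..R, ph v) * ℓ)
        linarith
    _ < ε := by linarith

end Pool.Agent.N482.PV
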