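import Pool.Agent.N657.QL.Stm

/-!
# The longitudinal infrared bound (project QL)
-/

set_option autoImplicit false

namespace Pool.Agent.N482.QLLONG

open MeasureTheory Filter Topology
open Pool.Agent.N657.QR Pool.Agent.N657.QL

section gen

variable {V : Type} [Fintype V] [DecidableEq V]

theorem tp_cos (x : V) : (fun θ : V → ℝ => Real.cos (θ x)) ∈ TP V :=
  Algebra.subset_adjoin ⟨x, Or.inl rfl⟩

theorem tp_sin (x : V) : (fun θ : V → ℝ => Real.sin (θ x)) ∈ TP V :=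
  Algebra.subset_adjoin ⟨x, Or.inr rfl⟩

theorem integ (hT : S_TPB) {μ : Measure (V → ℝ)} [IsProbabilityMeasure μ] {R : (V → ℝ) → ℝ}
    (hR : R ∈ TP V) : Integrable R μ := by
  obtain ⟨C, hC⟩ := hT.bdd R hR
  exact Integrable.of_bound (hT.cont R hR).aestronglyMeasurable C
    (Eventually.of_forall fun θ => by simpa [Real.norm_eq_abs] using hC θ)

theorem int3 (hT : S_TPB) {μ : Measure (V → ℝ)} [IsProbabilityMeasure μ]
    {F F0 F1 F2 : (V → ℝ) → ℝ} (h0 : F0 ∈ TP V) (h1 : F1 ∈ TP V) (h2 : F2 ∈ TP V) (κ : ℝ)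
    (hF : ∀ θ, F θ = F0 θ + 2 * κ * F1 θ + κ ^ 2 * F2 θ) :
    ∫ θ, F θ ∂μ = (∫ θ, F0 θ ∂μ) + 2 * κ * (∫ θ, F1 θ ∂μ) + κ ^ 2 * ∫ θ, F2 θ ∂μ := by
  have i0 := integ hT (μ := μ) h0
  have i1 := (integ hT (μ := μ) h1).const_mul (2 * κ)
  have i2 := (integ hT (μ := μ) h2).const_mul (κ ^ 2)
  have e : (fun θ => F θ) = fun θ => (F0 θ + 2 * κ * F1 θ) + κ ^ 2 * F2 θ := funext hF
  have i01 : Integrable (fun θ => F0 θ + 2 * κ * F1 θ) μ := i0.add i1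
  rw [e, integral_add i01 i2, integral_add i0 i1, integral_const_mul, integral_const_mul]

theorem pd_smul (hT : S_TPB) {R : (V → ℝ) → ℝ} (hR : R ∈ TP V) (κ : ℝ) (x : V) (θ : V → ℝ) :
    pd x (κ • R) θ = κ * pd x R θ :=
  ((hT.hasd R hR x θ).const_mul κ).deriv

theorem mx_mem (hT : S_TPB) : (mx : (V → ℝ) → ℝ) ∈ TP V := (hT.mem (0 : V → ℝ)).2.2.1

theorem my_mem (hT : S_TPB) : (my : (V → ℝ) → ℝ) ∈ TP V := (hT.mem (0 : V → ℝ)).2.2.2.1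

theorem P_mem (hT : S_TPB) (M : ℕ) : ((1 + mx) ^ M : (V → ℝ) → ℝ) ∈ TP V :=
  pow_mem (add_mem (one_mem _) (mx_mem hT)) M

theorem pd_P (hT : S_TPB) (M : ℕ) (x : V) (θ : V → ℝ) : pd x ((1 + mx) ^ M) θ =
    M * (1 + mx θ) ^ (M - 1) * (-Real.sin (θ x) / (Fintype.card V : ℝ)) := by
  have h := ((hT.hasd mx (mx_mem hT) x θ).const_add 1).pow M
  have h2 := h.deriv
  rw [(hT.pdm x θ).1] at h2
  simp only [zero_smul, add_zero] at h2
  exact h2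

theorem pd_Lf (hT : S_TPB) (f : V → ℝ) (x : V) (θ : V → ℝ) : pd x (Lf f) θ =
    f x * (my θ * Real.cos (θ x) - mx θ * Real.sin (θ x)) +
      (Yf f θ * Real.cos (θ x) - Xf f θ * Real.sin (θ x)) / (Fintype.card V : ℝ) := by
  have e : Lf f = mx * Xf f + my * Yf f := rfl
  obtain ⟨m1, m2, m3, m4, -⟩ := hT.mem f
  rw [e, hT.pdadd _ _ (mul_mem m3 m1) (mul_mem m4 m2), hT.pdmul _ _ m3 m1, hT.pdmul _ _ m4 m2,
    (hT.pdX f x θ).1, (hT.pdX f x θ).2, (hT.pdm x θ).1, (hT.pdm x θ).2.1]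
  ring

/-- the transverse fluctuation at `x` -/
noncomputable def qx (x : V) (θ : V → ℝ) : ℝ := (my θ * Real.cos (θ x) - mx θ * Real.sin (θ x)) ^ 2

theorem qx_mem (hT : S_TPB) (x : V) : (qx x : (V → ℝ) → ℝ) ∈ TP V := by
  have e : (qx x : (V → ℝ) → ℝ) = (my * (fun θ : V → ℝ => Real.cos (θ x)) -
    mx * fun θ : V → ℝ => Real.sin (θ x)) ^ 2 := rfl
  rw [e]
  exact pow_mem (sub_mem (mul_mem (my_mem hT) (tp_cos x)) (mul_mem (mx_mem hT) (tp_sin x))) 2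

variable [Nonempty V]

theorem mx_bd (hT : S_TPB) (θ : V → ℝ) : 0 ≤ 1 + mx θ ∧ 1 + mx θ ≤ 2 := by
  have h := (hT.bounds (0 : V → ℝ) θ).2.1
  unfold r2 at h
  constructor <;> nlinarith [sq_nonneg (my θ), sq_nonneg (mx θ)]

theorem P_bd (hT : S_TPB) (M : ℕ) (θ : V → ℝ) : ((1 + mx θ) ^ M) ^ 2 ≤ 4 ^ M := by
  obtain ⟨h0, h1⟩ := mx_bd hT θ
  rw [← pow_mul, mul_comm, pow_mul]
  have h2 : (1 + mx θ) ^ 2 ≤ 4 := by nlinarith
  exact pow_le_pow_left₀ (by positivity) h2 M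

theorem grP_bd (hT : S_TPB) (M : ℕ) (θ : V → ℝ) :
    gr ((1 + mx) ^ M) θ ≤ (M : ℝ) ^ 2 * 4 ^ M / (Fintype.card V : ℝ) := by
  have hv : (0 : ℝ) < Fintype.card V := by exact_mod_cast Fintype.card_pos
  obtain ⟨h0, h1⟩ := mx_bd hT θ
  have h2 : ((1 + mx θ) ^ (M - 1)) ^ 2 ≤ 4 ^ M := by
    refine (P_bd hT (M - 1) θ).trans ?_
    exact pow_le_pow_right₀ (by norm_num) (Nat.sub_le _ _)
  have h3 : ∀ x, pd x ((1 + mx) ^ M) θ ^ 2 ≤ (M : ℝ) ^ 2 * 4 ^ M / (Fintype.card V : ℝ) ^ 2 := by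
    intro x
    rw [pd_P hT]
    have e : ((M : ℝ) * (1 + mx θ) ^ (M - 1) * (-Real.sin (θ x) / (Fintype.card V : ℝ))) ^ 2 =
        (M : ℝ) ^ 2 * ((1 + mx θ) ^ (M - 1)) ^ 2 * Real.sin (θ x) ^ 2 /
          (Fintype.card V : ℝ) ^ 2 := by ring
    rw [e]
    have h4 : Real.sin (θ x) ^ 2 ≤ 1 := Real.sin_sq_le_one _
    have h5 : ((1 + mx θ) ^ (M - 1)) ^ 2 * Real.sin (θ x) ^ 2 ≤ 4 ^ M * 1 :=
      mul_le_mul h2 h4 (sq_nonneg _) (by positivity)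
    have h6 : (M : ℝ) ^ 2 * (((1 + mx θ) ^ (M - 1)) ^ 2 * Real.sin (θ x) ^ 2) ≤
        (M : ℝ) ^ 2 * (4 ^ M * 1) := mul_le_mul_of_nonneg_left h5 (sq_nonneg _)
    apply div_le_div_of_nonneg_right _ (by positivity)
    linarith
  calc gr ((1 + mx) ^ M) θ ≤ ∑ _x : V, (M : ℝ) ^ 2 * 4 ^ M / (Fintype.card V : ℝ) ^ 2 :=
        Finset.sum_le_sum fun x _ => h3 x
    _ = (M : ℝ) ^ 2 * 4 ^ M / (Fintype.card V : ℝ) := by
        rw [Finset.sum_const, Finset.card_univ, nsmul_eq_mul]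
        field_simp

theorem grL_bd (hT : S_TPB) (f : V → ℝ) (θ : V → ℝ) :
    gr (Lf f) θ ≤ 2 * (∑ x, f x ^ 2 * qx x θ) + 2 * Nf f θ / (Fintype.card V : ℝ) := by
  have hv : (0 : ℝ) < Fintype.card V := by exact_mod_cast Fintype.card_pos
  have h1 : ∀ x, pd x (Lf f) θ ^ 2 ≤ 2 * (f x ^ 2 * qx x θ) +
      2 * Nf f θ / (Fintype.card V : ℝ) ^ 2 := by
    intro x
    rw [pd_Lf hT]
    have h2 : (Yf f θ * Real.cos (θ x) - Xf f θ * Real.sin (θ x)) ^ 2 ≤ Nf f θ := by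
      unfold Nf
      have := Real.sin_sq_add_cos_sq (θ x)
      nlinarith [sq_nonneg (Yf f θ * Real.sin (θ x) + Xf f θ * Real.cos (θ x))]
    have h3 : ((Yf f θ * Real.cos (θ x) - Xf f θ * Real.sin (θ x)) / (Fintype.card V : ℝ)) ^ 2 ≤
        Nf f θ / (Fintype.card V : ℝ) ^ 2 := by
      rw [div_pow]
      exact div_le_div_of_nonneg_right h2 (by positivity)
    have h4 : ∀ a b : ℝ, (a + b) ^ 2 ≤ 2 * a ^ 2 + 2 * b ^ 2 := fun a b => by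
      nlinarith [sq_nonneg (a - b)]
    refine (h4 _ _).trans ?_
    have h5 : (f x * (my θ * Real.cos (θ x) - mx θ * Real.sin (θ x))) ^ 2 = f x ^ 2 * qx x θ := by
      unfold qx; ring
    rw [h5]
    have h6 : 2 * Nf f θ / (Fintype.card V : ℝ) ^ 2 = 2 * (Nf f θ / (Fintype.card V : ℝ) ^ 2) := by
      ring
    rw [h6]
    linarith
  calc gr (Lf f) θ ≤ ∑ x : V, (2 * (f x ^ 2 * qx x θ) + 2 * Nf f θ / (Fintype.card V : ℝ) ^ 2) :=
        Finset.sum_le_sum fun x _ => h1 x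
    _ = _ := by
        rw [Finset.sum_add_distrib, Finset.sum_const, Finset.card_univ, nsmul_eq_mul,
          ← Finset.mul_sum]
        congr 1
        field_simp

omit [Nonempty V] [DecidableEq V] in
theorem Nf_nn (f : V → ℝ) (θ : V → ℝ) : 0 ≤ Nf f θ := by unfold Nf; positivity

theorem Lf_le (hT : S_TPB) (f : V → ℝ) (θ : V → ℝ) : Lf f θ ^ 2 ≤ Nf f θ := by
  obtain ⟨h0, h1, h2, -⟩ := hT.bounds f θ
  have := Nf_nn f θ
  nlinarith [sq_nonneg (Tf f θ)]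

theorem grPL_bd (hT : S_TPB) (M : ℕ) (f : V → ℝ) (θ : V → ℝ) :
    gr ((1 + mx) ^ M * Lf f) θ ≤ 4 * 4 ^ M * (∑ x, f x ^ 2 * qx x θ) +
      4 ^ M * (4 + 2 * (M : ℝ) ^ 2) / (Fintype.card V : ℝ) * Nf f θ := by
  have hv : (0 : ℝ) < Fintype.card V := by exact_mod_cast Fintype.card_pos
  obtain ⟨m1, m2, m3, m4, m5, m6, m7, m8⟩ := hT.mem f
  have h1 : gr ((1 + mx) ^ M * Lf f) θ ≤ 2 * (gr ((1 + mx) ^ M) θ * Lf f θ ^ 2) +
      2 * (((1 + mx θ) ^ M) ^ 2 * gr (Lf f) θ) := by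
    unfold gr
    rw [Finset.sum_mul, Finset.mul_sum, Finset.mul_sum, Finset.mul_sum, ← Finset.sum_add_distrib]
    apply Finset.sum_le_sum
    intro x _
    rw [hT.pdmul _ _ (P_mem hT M) m7]
    have e : ((1 + mx) ^ M : (V → ℝ) → ℝ) θ = (1 + mx θ) ^ M := rfl
    rw [e]
    nlinarith [sq_nonneg (pd x ((1 + mx) ^ M) θ * Lf f θ - (1 + mx θ) ^ M * pd x (Lf f) θ)]
  have hg0 : 0 ≤ gr ((1 + mx) ^ M) θ := Finset.sum_nonneg fun _ _ => sq_nonneg _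
  have hg1 : 0 ≤ gr (Lf f) θ := Finset.sum_nonneg fun _ _ => sq_nonneg _
  have hN := Nf_nn f θ
  have h2 : gr ((1 + mx) ^ M) θ * Lf f θ ^ 2 ≤
      (M : ℝ) ^ 2 * 4 ^ M / (Fintype.card V : ℝ) * Nf f θ :=
    mul_le_mul (grP_bd hT M θ) (Lf_le hT f θ) (sq_nonneg _) (by positivity)
  have h3 : ((1 + mx θ) ^ M) ^ 2 * gr (Lf f) θ ≤
      4 ^ M * (2 * (∑ x, f x ^ 2 * qx x θ) + 2 * Nf f θ / (Fintype.card V : ℝ)) :=
    mul_le_mul (P_bd hT M θ) (grL_bd hT f θ) hg1 (by positivity)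
  have e : 4 * 4 ^ M * (∑ x, f x ^ 2 * qx x θ) +
      4 ^ M * (4 + 2 * (M : ℝ) ^ 2) / (Fintype.card V : ℝ) * Nf f θ =
      2 * ((M : ℝ) ^ 2 * 4 ^ M / (Fintype.card V : ℝ) * Nf f θ) +
      2 * (4 ^ M * (2 * (∑ x, f x ^ 2 * qx x θ) + 2 * Nf f θ / (Fintype.card V : ℝ))) := by ring
  rw [e]
  linarith

end gen

section torus

variable {d L : ℕ} [NeZero L]

/-- the trial function -/
noncomputable def Rk (M : ℕ) (f : (Fin d → ZMod L) → ℝ) (κ : ℝ) :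
    ((Fin d → ZMod L) → ℝ) → ℝ := (1 + mx) ^ M + κ • ((1 + mx) ^ M * Lf f)

/-- the main inequality before the choice of the parameters -/
theorem ineq (hT : S_TPB) {U : ℝ} {μ : Measure ((Fin d → ZMod L) → ℝ)} (hE : Env U μ) {l : ℝ}
    {f : (Fin d → ZMod L) → ℝ} (hf : ∀ x, lap f x = l * f x) (M : ℕ) (t κ : ℝ) :
    2 * t * l * κ * (∫ θ, Xf f θ * Lf f θ * (1 + mx θ) ^ (2 * M) ∂μ) ≤
      U * ((∫ θ, gr ((1 + mx) ^ M) θ ∂μ) + κ ^ 2 * ∫ θ, gr ((1 + mx) ^ M * Lf f) θ ∂μ) +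
      t ^ 2 * l / 2 * (∑ x, f x ^ 2) * ((∫ θ, (1 + mx θ) ^ (2 * M) ∂μ) +
        κ ^ 2 * ∫ θ, Lf f θ ^ 2 * (1 + mx θ) ^ (2 * M) ∂μ) := by
  have := hE.prob
  obtain ⟨m1, m2, m3, m4, m5, m6, m7, m8⟩ := hT.mem f
  have hP := P_mem (V := Fin d → ZMod L) hT M
  have hPL := mul_mem hP m7
  have hR : ∀ κ : ℝ, Rk M f κ ∈ TP (Fin d → ZMod L) :=
    fun κ => add_mem hP (Subalgebra.smul_mem _ hPL κ)
  have hRe : ∀ (κ : ℝ) (θ : (Fin d → ZMod L) → ℝ), Rk M f κ θ =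
      (1 + mx θ) ^ M + κ * ((1 + mx θ) ^ M * Lf f θ) := fun _ _ => rfl
  have hsq : ∀ θ : (Fin d → ZMod L) → ℝ, (1 + mx θ) ^ (2 * M) = ((1 + mx θ) ^ M) ^ 2 := fun θ => by
    rw [← pow_mul, mul_comm]
  have hP2 : (fun θ : (Fin d → ZMod L) → ℝ => (1 + mx θ) ^ (2 * M)) ∈ TP (Fin d → ZMod L) :=
    P_mem hT (2 * M)
  -- the three expansions
  have e1 : ∀ κ : ℝ, ∫ θ, Xf f θ * Rk M f κ θ ^ 2 ∂μ =
      (∫ θ, Xf f θ * (1 + mx θ) ^ (2 * M) ∂μ) +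
      2 * κ * (∫ θ, Xf f θ * Lf f θ * (1 + mx θ) ^ (2 * M) ∂μ) +
      κ ^ 2 * ∫ θ, Xf f θ * Lf f θ ^ 2 * (1 + mx θ) ^ (2 * M) ∂μ := by
    intro κ
    refine int3 hT (F0 := fun θ => Xf f θ * (1 + mx θ) ^ (2 * M))
      (F1 := fun θ => Xf f θ * Lf f θ * (1 + mx θ) ^ (2 * M))
      (F2 := fun θ => Xf f θ * Lf f θ ^ 2 * (1 + mx θ) ^ (2 * M)) (mul_mem m1 hP2)
      (mul_mem (mul_mem m1 m7) hP2) (mul_mem (mul_mem m1 (pow_mem m7 2)) hP2) κ ?_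
    intro θ
    simp only [hRe, hsq]
    ring
  have e2 : ∀ κ : ℝ, ∫ θ, Rk M f κ θ ^ 2 ∂μ =
      (∫ θ, (1 + mx θ) ^ (2 * M) ∂μ) +
      2 * κ * (∫ θ, Lf f θ * (1 + mx θ) ^ (2 * M) ∂μ) +
      κ ^ 2 * ∫ θ, Lf f θ ^ 2 * (1 + mx θ) ^ (2 * M) ∂μ := by
    intro κ
    refine int3 hT (F0 := fun θ => (1 + mx θ) ^ (2 * M))
      (F1 := fun θ => Lf f θ * (1 + mx θ) ^ (2 * M))
      (F2 := fun θ => Lf f θ ^ 2 * (1 + mx θ) ^ (2 * M)) hP2
      (mul_mem m7 hP2) (mul_mem (pow_mem m7 2) hP2) κ ?_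
    intro θ
    simp only [hRe, hsq]
    ring
  have e3 : ∀ κ : ℝ, ∫ θ, gr (Rk M f κ) θ ∂μ =
      (∫ θ, gr ((1 + mx) ^ M) θ ∂μ) +
      2 * κ * (∫ θ, (∑ x, pd x ((1 + mx) ^ M) * pd x ((1 + mx) ^ M * Lf f)) θ ∂μ) +
      κ ^ 2 * ∫ θ, gr ((1 + mx) ^ M * Lf f) θ ∂μ := by
    intro κ
    refine int3 hT (F0 := gr ((1 + mx) ^ M))
      (F1 := ∑ x, pd x ((1 + mx) ^ M) * pd x ((1 + mx) ^ M * Lf f))
      (F2 := gr ((1 + mx) ^ M * Lf f)) (hT.grmem _ hP)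
      (sum_mem fun x _ => mul_mem (hT.pdmem _ hP x) (hT.pdmem _ hPL x)) (hT.grmem _ hPL) κ ?_
    intro θ
    unfold gr Rk
    rw [Finset.sum_apply, Finset.mul_sum, Finset.mul_sum, ← Finset.sum_add_distrib,
      ← Finset.sum_add_distrib]
    refine Finset.sum_congr rfl fun x _ => ?_
    rw [hT.pdadd _ _ hP (Subalgebra.smul_mem _ hPL κ), pd_smul hT hPL, Pi.mul_apply]
    ring
  have s1 := hE.star _ (hR κ) t l f hf
  have s2 := hE.star _ (hR (-κ)) (-t) l f hf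
  rw [e1, e2, e3] at s1 s2
  have q2 : (-t) ^ 2 = t ^ 2 := by ring
  have q3 : (-κ) ^ 2 = κ ^ 2 := by ring
  rw [q2, q3] at s2
  linarith

theorem shift_my (θ : (Fin d → ZMod L) → ℝ) (a : Fin d → ZMod L) :
    my (fun x => θ (x + a)) = my θ ∧ mx (fun x => θ (x + a)) = mx θ := by
  unfold my mx Yf Xf
  constructor
  · congr 1
    exact Fintype.sum_equiv (Equiv.addRight a) _ _ fun x => rfl
  · congr 1
    exact Fintype.sum_equiv (Equiv.addRight a) _ _ fun x => rfl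

theorem qx_int (hT : S_TPB) {U : ℝ} {μ : Measure ((Fin d → ZMod L) → ℝ)} (hE : Env U μ)
    (x : Fin d → ZMod L) : ∫ θ, qx x θ ∂μ ≤ a1 μ := by
  have := hE.prob
  have h1 : ∀ a : Fin d → ZMod L, ∫ θ, qx a θ ∂μ = ∫ θ, qx 0 θ ∂μ := by
    intro a
    rw [← hE.trans _ (qx_mem hT 0) a]
    refine integral_congr_ae (Eventually.of_forall fun θ => ?_)
    simp only [qx, (shift_my θ a).1, (shift_my θ a).2, zero_add]
  have hv : (0 : ℝ) < Fintype.card (Fin d → ZMod L) := by exact_mod_cast Fintype.card_pos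
  have h2 : ∫ θ, (∑ a, qx a θ) ∂μ = (Fintype.card (Fin d → ZMod L) : ℝ) * ∫ θ, qx 0 θ ∂μ := by
    rw [integral_finsetSum _ fun a _ => integ hT (qx_mem hT a)]
    simp only [h1]
    rw [Finset.sum_const, Finset.card_univ, nsmul_eq_mul]
  have hr : (r2 : ((Fin d → ZMod L) → ℝ) → ℝ) ∈ TP (Fin d → ZMod L) :=
    (hT.mem (0 : (Fin d → ZMod L) → ℝ)).2.2.2.2.1
  have hi : Integrable (fun θ : (Fin d → ZMod L) → ℝ => 1 - r2 θ) μ :=
    (integrable_const _).sub (integ hT hr)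
  have h3 : ∫ θ, (∑ a, qx a θ) ∂μ ≤ (Fintype.card (Fin d → ZMod L) : ℝ) * a1 μ := by
    unfold a1
    rw [← integral_const_mul]
    refine integral_mono_of_nonneg (Eventually.of_forall fun θ =>
      Finset.sum_nonneg fun a _ => sq_nonneg _) (hi.const_mul _) (Eventually.of_forall fun θ => ?_)
    obtain ⟨b1, b2, -, -, b5, -⟩ := hT.bounds (0 : (Fin d → ZMod L) → ℝ) θ
    have e : ∑ a, qx a θ = ∑ a, (mx θ * Real.sin (θ a) - my θ * Real.cos (θ a)) ^ 2 :=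
      Finset.sum_congr rfl fun a _ => by unfold qx; ring
    simp only
    rw [e]
    refine b5.trans ?_
    apply mul_le_mul_of_nonneg_left _ hv.le
    nlinarith
  rw [h1 x]
  have h4 := h2.symm.trans_le h3
  exact le_of_mul_le_mul_left h4 hv

theorem main (hT : S_TPB) (hR : S_ROTA) (hQ : S_RATIO) : S_LONG := by
  intro M δ hδ
  rcases Nat.eq_zero_or_pos M with hM | hM
  · refine ⟨1, 0, one_pos, le_rfl, ?_⟩
    intro d L _ U l μ f hU hl hE hf hC ha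
    have h0 : ∀ θ : (Fin d → ZMod L) → ℝ, cM M (r2 θ) * Lf f θ ^ 2 = 0 := by
      intro θ
      rw [hM]
      simp [cM]
    simp only [h0, integral_zero, zero_mul, add_zero]
    have : 0 ≤ ∑ x, f x ^ 2 := Finset.sum_nonneg fun _ _ => sq_nonneg _
    positivity
  obtain ⟨hc, hb, -⟩ := hQ.2 M hM
  set A : ℝ := AM M 1 with hA
  have hA1 : 1 ≤ A := (hb 1 zero_le_one le_rfl).1
  set Q : ℝ := 4 ^ M with hQd
  have hQ0 : 0 < Q := by positivity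
  set K : ℝ := (A + 1) / (2 * δ) with hK
  have hK0 : 0 < K := by positivity
  have hKδ : K * δ = (A + 1) / 2 := by rw [hK]; field_simp
  set C' : ℝ := Q * (4 + 2 * (M : ℝ) ^ 2) with hC'
  have hC'0 : 0 ≤ C' := by positivity
  refine ⟨δ / (4 * Q * K), K / 2 * ((M : ℝ) ^ 2 * Q ^ 2 + C'), by positivity, by positivity, ?_⟩
  intro d L _ U l μ f hU hl hE hf hCub ha
  have := hE.prob
  obtain ⟨m1, m2, m3, m4, m5, m6, m7, m8⟩ := hT.mem f
  set v : ℝ := (Fintype.card (Fin d → ZMod L) : ℝ) with hv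
  have hv0 : 0 < v := by rw [hv]; exact_mod_cast Fintype.card_pos
  set σ : ℝ := ∑ x, f x ^ 2 with hσ
  have hσ0 : 0 ≤ σ := Finset.sum_nonneg fun _ _ => sq_nonneg _
  set a : ℝ := Real.sqrt U with had
  set b : ℝ := Real.sqrt l with hbd
  have ha0 : 0 < a := Real.sqrt_pos.2 hU
  have hb0 : 0 < b := Real.sqrt_pos.2 hl
  have haU : U = a ^ 2 := (Real.sq_sqrt hU.le).symm
  have hbl : l = b ^ 2 := (Real.sq_sqrt hl.le).symm
  rcases hσ0.eq_or_lt with hσz | hσp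
  · -- f = 0
    have hf0 : ∀ x, f x = 0 := by
      intro x
      have h1 := (Finset.sum_eq_zero_iff_of_nonneg (fun x _ => sq_nonneg (f x))).1 hσz.symm x
        (Finset.mem_univ x)
      exact pow_eq_zero_iff (two_ne_zero) |>.1 h1
    have h0 : ∀ θ : (Fin d → ZMod L) → ℝ, cM M (r2 θ) * Lf f θ ^ 2 = 0 := by
      intro θ
      have : Lf f θ = 0 := by simp [Lf, Xf, Yf, hf0]
      rw [this]; ring
    simp only [h0, integral_zero]
    positivity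
  set W : ℝ := ∫ θ, cM M (r2 θ) * Lf f θ ^ 2 ∂μ with hW
  obtain ⟨ro1, -, ro3, -⟩ := hR d L U μ hE M f
  have hN : ∫ θ, Nf f θ ∂μ ≤ a / b * σ := hE.irb l f hl hf
  -- bounds
  have b0 : ∫ θ, (1 + mx θ) ^ (2 * M) ∂μ ≤ A := by
    rw [ro1]
    have h1 : ∫ θ, AM M (r2 θ) ∂μ ≤ ∫ _θ : (Fin d → ZMod L) → ℝ, A ∂μ := by
      refine integral_mono_of_nonneg (Eventually.of_forall fun θ => ?_) (integrable_const _)
        (Eventually.of_forall fun θ => ?_)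
      · obtain ⟨c1, c2, -⟩ := hT.bounds f θ
        exact zero_le_one.trans (hb _ c1 c2).1
      · obtain ⟨c1, c2, -⟩ := hT.bounds f θ
        exact (hb _ c1 c2).2.1
    simpa using h1
  have hiN : Integrable (fun θ => Nf f θ) μ := integ hT m6
  have b2 : ∫ θ, Lf f θ ^ 2 * (1 + mx θ) ^ (2 * M) ∂μ ≤ Q * (a / b * σ) := by
    have h1 : ∫ θ, Lf f θ ^ 2 * (1 + mx θ) ^ (2 * M) ∂μ ≤ ∫ θ, Q * Nf f θ ∂μ := by
      refine integral_mono_of_nonneg (Eventually.of_forall fun θ => ?_) (hiN.const_mul _)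
        (Eventually.of_forall fun θ => ?_)
      · have := (mx_bd hT θ).1
        simp only [Pi.zero_apply]
        positivity
      · simp only
        have h2 := P_bd hT M θ
        rw [← pow_mul, mul_comm M 2] at h2
        rw [mul_comm]
        exact mul_le_mul h2 (Lf_le hT f θ) (sq_nonneg _) hQ0.le
    rw [integral_const_mul] at h1
    exact h1.trans (mul_le_mul_of_nonneg_left hN hQ0.le)
  have g0 : ∫ θ, gr ((1 + mx) ^ M) θ ∂μ ≤ (M : ℝ) ^ 2 * Q / v := by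
    have h1 : ∫ θ, gr ((1 + mx) ^ M) θ ∂μ ≤
        ∫ _θ : (Fin d → ZMod L) → ℝ, (M : ℝ) ^ 2 * Q / v ∂μ :=
      integral_mono_of_nonneg (Eventually.of_forall fun θ =>
        Finset.sum_nonneg fun _ _ => sq_nonneg _) (integrable_const _)
        (Eventually.of_forall fun θ => grP_bd hT M θ)
    simpa using h1
  have hiq : ∀ x : Fin d → ZMod L, Integrable (fun θ => f x ^ 2 * qx x θ) μ := fun x =>
    (integ hT (qx_mem hT x)).const_mul _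
  have g2 : ∫ θ, gr ((1 + mx) ^ M * Lf f) θ ∂μ ≤ 4 * Q * (σ * a1 μ) + C' / v * (a / b * σ) := by
    have hi1 : Integrable (fun θ => 4 * Q * ∑ x, f x ^ 2 * qx x θ) μ :=
      (integrable_finset_sum _ fun x _ => hiq x).const_mul _
    have hi2 : Integrable (fun θ => C' / v * Nf f θ) μ := hiN.const_mul _
    have h1 : ∫ θ, gr ((1 + mx) ^ M * Lf f) θ ∂μ ≤
        ∫ θ, (4 * Q * (∑ x, f x ^ 2 * qx x θ) + C' / v * Nf f θ) ∂μ :=
      integral_mono_of_nonneg (Eventually.of_forall fun θ =>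
        Finset.sum_nonneg fun _ _ => sq_nonneg _) (hi1.add hi2)
        (Eventually.of_forall fun θ => grPL_bd hT M f θ)
    rw [integral_add hi1 hi2, integral_const_mul, integral_const_mul,
      integral_finsetSum _ fun x _ => hiq x] at h1
    refine h1.trans (add_le_add ?_ (mul_le_mul_of_nonneg_left hN (by positivity)))
    apply mul_le_mul_of_nonneg_left _ (by positivity)
    rw [hσ, Finset.sum_mul]
    refine Finset.sum_le_sum fun x _ => ?_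
    rw [integral_const_mul]
    exact mul_le_mul_of_nonneg_left (qx_int hT hE x) (sq_nonneg _)
  -- parameters
  set s : ℝ := K * b / a with hs
  set T : ℝ := a / (K ^ 2 * Q * σ * b) with hTd
  have hs0 : 0 < s := by positivity
  have hT0 : 0 < T := by positivity
  have ht2 : Real.sqrt T * Real.sqrt T = T := Real.mul_self_sqrt hT0.le
  have h1 := ineq hT hE hf M (Real.sqrt T) (Real.sqrt T * s)
  rw [ro3] at h1
  have q1 : 2 * Real.sqrt T * l * (Real.sqrt T * s) = T * (2 * s * b ^ 2) := by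
    rw [hbl]
    calc _ = (Real.sqrt T * Real.sqrt T) * (2 * s * b ^ 2) := by ring
      _ = _ := by rw [ht2]
  have q2 : (Real.sqrt T * s) ^ 2 = T * s ^ 2 := by
    rw [mul_pow, pow_two (Real.sqrt T), ht2]
  have q3 : Real.sqrt T ^ 2 = T := by rw [pow_two, ht2]
  rw [q1, q2, q3] at h1
  have h2 : U * ((∫ θ, gr ((1 + mx) ^ M) θ ∂μ) + T * s ^ 2 * ∫ θ, gr ((1 + mx) ^ M * Lf f) θ ∂μ) ≤
      a ^ 2 * ((M : ℝ) ^ 2 * Q / v + T * s ^ 2 * (4 * Q * (σ * a1 μ) + C' / v * (a / b * σ))) := by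
    rw [haU]
    apply mul_le_mul_of_nonneg_left _ (sq_nonneg _)
    exact add_le_add g0 (mul_le_mul_of_nonneg_left g2 (by positivity))
  have h3 : T * l / 2 * σ * ((∫ θ, (1 + mx θ) ^ (2 * M) ∂μ) +
        T * s ^ 2 * ∫ θ, Lf f θ ^ 2 * (1 + mx θ) ^ (2 * M) ∂μ) ≤
      T * b ^ 2 / 2 * σ * (A + T * s ^ 2 * (Q * (a / b * σ))) := by
    rw [hbl]
    apply mul_le_mul_of_nonneg_left _ (by positivity)
    exact add_le_add b0 (mul_le_mul_of_nonneg_left b2 (by positivity))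
  have h4 : T * s ^ 2 * (Q * (a / b * σ)) = 1 := by
    rw [hTd, hs]
    field_simp
  have h5 : a ^ 2 * ((M : ℝ) ^ 2 * Q / v) =
      T * (a * b * ((M : ℝ) ^ 2 * Q ^ 2 * K ^ 2 * σ / v)) := by
    rw [hTd]
    field_simp
  have h6 : a ^ 2 * s ^ 2 = K ^ 2 * b ^ 2 := by
    rw [hs]
    field_simp
  have h7 : T * (2 * s * b ^ 2 * W) ≤ T * (a * b * ((M : ℝ) ^ 2 * Q ^ 2 * K ^ 2 * σ / v) +
      K ^ 2 * b ^ 2 * (4 * Q * (σ * a1 μ) + C' / v * (a / b * σ)) + b ^ 2 / 2 * σ * (A + 1)) := by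
    rw [h4] at h3
    have h8 : a ^ 2 * ((M : ℝ) ^ 2 * Q / v +
        T * s ^ 2 * (4 * Q * (σ * a1 μ) + C' / v * (a / b * σ))) =
        a ^ 2 * ((M : ℝ) ^ 2 * Q / v) +
        T * (a ^ 2 * s ^ 2) * (4 * Q * (σ * a1 μ) + C' / v * (a / b * σ)) := by ring
    rw [h8, h5, h6] at h2
    calc T * (2 * s * b ^ 2 * W) = T * (2 * s * b ^ 2) * W := by ring
      _ ≤ _ := h1
      _ ≤ _ := add_le_add h2 h3
      _ = _ := by ring
  have h8 := le_of_mul_le_mul_left h7 hT0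
  have h9 : 4 * Q * K * a1 μ ≤ δ := by
    have := mul_le_mul_of_nonneg_left ha (show 0 ≤ 4 * Q * K by positivity)
    rwa [mul_div_cancel₀] at this
    positivity
  -- final comparison
  have h10 : 2 * s * b ^ 2 * W ≤ 2 * s * b ^ 2 * (δ * σ * a / b +
      K / 2 * ((M : ℝ) ^ 2 * Q ^ 2 + C') * σ * U / (v * l)) := by
    refine h8.trans ?_
    have e1 : 2 * s * b ^ 2 * (δ * σ * a / b +
      K / 2 * ((M : ℝ) ^ 2 * Q ^ 2 + C') * σ * U / (v * l)) =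
      2 * (K * δ) * b ^ 2 * σ + K ^ 2 * ((M : ℝ) ^ 2 * Q ^ 2 + C') * a * b * σ / v := by
      rw [hs, haU, hbl]
      field_simp
    have e2 : a * b * ((M : ℝ) ^ 2 * Q ^ 2 * K ^ 2 * σ / v) +
      K ^ 2 * b ^ 2 * (4 * Q * (σ * a1 μ) + C' / v * (a / b * σ)) + b ^ 2 / 2 * σ * (A + 1) =
      K * b ^ 2 * σ * (4 * Q * K * a1 μ) + b ^ 2 * σ * ((A + 1) / 2) +
        K ^ 2 * ((M : ℝ) ^ 2 * Q ^ 2 + C') * a * b * σ / v := by
      field_simp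
      ring
    rw [e1, e2, ← hKδ]
    have h11 : K * b ^ 2 * σ * (4 * Q * K * a1 μ) ≤ K * b ^ 2 * σ * δ :=
      mul_le_mul_of_nonneg_left h9 (by positivity)
    have h12 : K * b ^ 2 * σ * δ + b ^ 2 * σ * (K * δ) = 2 * (K * δ) * b ^ 2 * σ := by ring
    linarith
  exact le_of_mul_le_mul_left h10 (by positivity)

end torus

end Pool.Agent.N482.QLLONG
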