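import Pool.Agent.N894.WF.DefsS

set_option autoImplicit false

/-!
# Linear sofic groups over finite fields are rank-sofic
-/

namespace Pool.Agent.N482.WF

open N894.WF

section

variable {k : Type} [Field k] {n : ℕ}

/-- the displacements `t v - v` -/
noncomputable def rg (t : (Matrix (Fin n) (Fin n) k)ˣ) : Submodule k (Fin n → k) :=
  LinearMap.range ((t : Matrix (Fin n) (Fin n) k) - 1).mulVecLin

lemma finrank_sup (T : Finset (Matrix (Fin n) (Fin n) k)ˣ) :
    Module.finrank k (T.sup rg : Submodule k (Fin n → k)) ≤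
      ∑ t ∈ T, ((t : Matrix (Fin n) (Fin n) k) - 1).rank := by
  classical
  induction T using Finset.induction_on with
  | empty => simp
  | insert a T ha ih =>
    rw [Finset.sup_insert, Finset.sum_insert ha]
    exact (Submodule.finrank_add_le_finrank_add_finrank _ _).trans (add_le_add le_rfl ih)

lemma apply_sub (t : Matrix (Fin n) (Fin n) k) (v : Fin n → k) :
    (t - 1).mulVecLin v = t.mulVec v - v := by
  rw [Matrix.mulVecLin_apply, Matrix.sub_mulVec, Matrix.one_mulVec]

lemma mem_closure (T : Finset (Matrix (Fin n) (Fin n) k)ˣ) (s : (Matrix (Fin n) (Fin n) k)ˣ)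
    (hs : s ∈ Subgroup.closure (T : Set (Matrix (Fin n) (Fin n) k)ˣ)) :
    ∀ v : Fin n → k, (s : Matrix (Fin n) (Fin n) k).mulVec v - v ∈ T.sup rg := by
  induction hs using Subgroup.closure_induction with
  | mem t ht =>
    intro v
    have h1 : rg t ≤ T.sup rg := Finset.le_sup (f := rg) ht
    exact h1 ⟨v, apply_sub _ v⟩
  | one =>
    intro v
    rw [Units.val_one, Matrix.one_mulVec, sub_self]
    exact Submodule.zero_mem _
  | mul s s' _ _ h h' =>
    intro v
    have h1 := Submodule.add_mem _ (h ((s' : Matrix (Fin n) (Fin n) k).mulVec v)) (h' v)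
    rw [sub_add_sub_cancel, Matrix.mulVec_mulVec, ← Units.val_mul] at h1
    exact h1
  | inv s _ h =>
    intro v
    have h1 := h (((s⁻¹ : (Matrix (Fin n) (Fin n) k)ˣ) : Matrix (Fin n) (Fin n) k).mulVec v)
    rw [Matrix.mulVec_mulVec, ← Units.val_mul, mul_inv_cancel, Units.val_one,
      Matrix.one_mulVec] at h1
    have h2 := Submodule.neg_mem _ h1
    rwa [neg_sub] at h2

lemma rank_closure (T : Finset (Matrix (Fin n) (Fin n) k)ˣ) (s : (Matrix (Fin n) (Fin n) k)ˣ)
    (hs : s ∈ Subgroup.closure (T : Set (Matrix (Fin n) (Fin n) k)ˣ)) :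
    ((s : Matrix (Fin n) (Fin n) k) - 1).rank ≤
      ∑ t ∈ T, ((t : Matrix (Fin n) (Fin n) k) - 1).rank := by
  refine le_trans ?_ (finrank_sup T)
  refine Submodule.finrank_mono ?_
  rintro _ ⟨v, rfl⟩
  rw [apply_sub]
  exact mem_closure T s hs v

lemma rank_err (x a b c : (Matrix (Fin n) (Fin n) k)ˣ) :
    (((x * (a * b * c⁻¹) * x⁻¹ : (Matrix (Fin n) (Fin n) k)ˣ) : Matrix (Fin n) (Fin n) k) -
      1).rank ≤ ((c : Matrix (Fin n) (Fin n) k) - a * b).rank := by
  have e : ((x * (a * b * c⁻¹) * x⁻¹ : (Matrix (Fin n) (Fin n) k)ˣ) :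
      Matrix (Fin n) (Fin n) k) - 1 =
      ((x : Matrix (Fin n) (Fin n) k) * ((c : Matrix (Fin n) (Fin n) k) - a * b)) *
        (-(((c⁻¹ : (Matrix (Fin n) (Fin n) k)ˣ) : Matrix (Fin n) (Fin n) k) *
          ((x⁻¹ : (Matrix (Fin n) (Fin n) k)ˣ) : Matrix (Fin n) (Fin n) k))) := by
    have h1 : (c : Matrix (Fin n) (Fin n) k) *
        ((c⁻¹ : (Matrix (Fin n) (Fin n) k)ˣ) : Matrix (Fin n) (Fin n) k) = 1 := by
      rw [← Units.val_mul, mul_inv_cancel, Units.val_one]
    have h2 : (x : Matrix (Fin n) (Fin n) k) *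
        ((x⁻¹ : (Matrix (Fin n) (Fin n) k)ˣ) : Matrix (Fin n) (Fin n) k) = 1 := by
      rw [← Units.val_mul, mul_inv_cancel, Units.val_one]
    have h3 : (x : Matrix (Fin n) (Fin n) k) * (c : Matrix (Fin n) (Fin n) k) *
        (((c⁻¹ : (Matrix (Fin n) (Fin n) k)ˣ) : Matrix (Fin n) (Fin n) k) *
          ((x⁻¹ : (Matrix (Fin n) (Fin n) k)ˣ) : Matrix (Fin n) (Fin n) k)) = 1 := by
      rw [mul_assoc, ← mul_assoc (c : Matrix (Fin n) (Fin n) k), h1, one_mul, h2]
    rw [mul_neg, mul_sub, sub_mul, h3, neg_sub]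
    simp only [Units.val_mul, mul_assoc]
  rw [e]
  exact (Matrix.rank_mul_le_left _ _).trans (Matrix.rank_mul_le_right _ _)

end

theorem t_S2 : N894.WF.LeafS2 := by
  intro G _ hG F K
  classical
  obtain ⟨δ, hδ, H⟩ := hG
  obtain ⟨k, _, _, n, φ, hn, h1, h2⟩ := H (F ∪ Finset.image₂ (fun a b => a * b) F F)
    (δ / (2 * (K + 1))) (by positivity)
  refine ⟨(Matrix (Fin n) (Fin n) k)ˣ, inferInstance, ?_, φ, ?_⟩
  · have : Finite (Matrix (Fin n) (Fin n) k) := by
      unfold Matrix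
      infer_instance
    exact Finite.of_injective (fun u : (Matrix (Fin n) (Fin n) k)ˣ => u.val) Units.val_injective
  · intro T hT herr g hg hg1 hcl
    have h3 := h2 g (Finset.mem_union_left _ hg) hg1
    have h4 := rank_closure T (φ g) hcl
    have h5 : ∀ t ∈ T, ((((t : Matrix (Fin n) (Fin n) k) - 1).rank : ℕ) : ℝ) ≤
        δ / (2 * (K + 1)) * n := by
      intro t ht
      obtain ⟨x, a, ha, b, hb, rfl⟩ := herr t ht
      have h6 := rank_err x (φ a) (φ b) (φ (a * b))
      have h7 := h1 a (Finset.mem_union_left _ ha) b (Finset.mem_union_left _ hb)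
        (Finset.mem_union_right _ (Finset.mem_image₂_of_mem ha hb))
      have h8 : ((((((x * (φ a * φ b * (φ (a * b))⁻¹) * x⁻¹ : (Matrix (Fin n) (Fin n) k)ˣ)) :
        Matrix (Fin n) (Fin n) k) - 1).rank : ℕ) : ℝ) ≤
          ((((φ (a * b) : Matrix (Fin n) (Fin n) k) - φ a * φ b).rank : ℕ) : ℝ) := by
        exact_mod_cast h6
      exact h8.trans h7
    have h6 : ((((φ g : Matrix (Fin n) (Fin n) k) - 1).rank : ℕ) : ℝ) ≤
        ∑ t ∈ T, ((((t : Matrix (Fin n) (Fin n) k) - 1).rank : ℕ) : ℝ) := by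
      exact_mod_cast h4
    have h7 := h6.trans (Finset.sum_le_card_nsmul T _ _ h5)
    rw [nsmul_eq_mul] at h7
    have hn' : (0 : ℝ) < n := by exact_mod_cast hn
    have hTK : (T.card : ℝ) ≤ K := by exact_mod_cast hT
    have h8 : (T.card : ℝ) * (δ / (2 * (K + 1)) * n) ≤ K * (δ / (2 * (K + 1)) * n) :=
      mul_le_mul_of_nonneg_right hTK (by positivity)
    have h9 : (K : ℝ) * (δ / (2 * (K + 1)) * n) < δ * n := by
      have h10 : (K : ℝ) * (δ / (2 * (K + 1)) * n) = δ * n * (K / (2 * (K + 1))) := by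
        field_simp
      rw [h10]
      have h11 : (K : ℝ) / (2 * (K + 1)) < 1 := by
        rw [div_lt_one (by positivity)]
        have : (0 : ℝ) ≤ K := Nat.cast_nonneg K
        linarith
      have h12 : 0 < δ * (n : ℝ) := by positivity
      nlinarith
    linarith

end Pool.Agent.N482.WF
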